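import Pool.Agent.X160.Pf.Geo
set_option autoImplicit false

/-!
# Counting separated points near a line; components of tubes
-/

open MeasureTheory Set Metric
open scoped ENNReal NNReal

namespace Pool.Agent.X160.Pf

/-- `ℝ^(m+2) = (ℝ^m × ℝ) × ℝ` -/
abbrev Space (m : ℕ) : Type := WithLp 2 (Base m × ℝ)

/-- The closed tube of length `1` and radius `δ` with centre `a` and axis direction `e`. -/
def tube {m : ℕ} (δ : ℝ) (e a : Space m) : Set (Space m) :=
  {y | |inner ℝ (y - a) e| ≤ 1 / 2 ∧ ‖(y - a) - (inner ℝ (y - a) e : ℝ) • e‖ ≤ δ}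

/-- The unit vector `(v, 1)/√(1+|v|²)`. -/
noncomputable def dir {m : ℕ} (v : Base m) : Space m :=
  (√(1 + ‖v‖ ^ 2))⁻¹ • WithLp.toLp 2 (v, (1:ℝ))

theorem norm_fst_le' {E F : Type*} [NormedAddCommGroup E] [NormedAddCommGroup F]
    (x : WithLp 2 (E × F)) : ‖x.fst‖ ≤ ‖x‖ := by
  have h := WithLp.prod_norm_sq_eq_of_L2 x
  have : ‖x.fst‖ ^ 2 ≤ ‖x‖ ^ 2 := by nlinarith [sq_nonneg ‖x.snd‖]
  exact le_of_sq_le_sq this (norm_nonneg _)

theorem norm_snd_le' {E F : Type*} [NormedAddCommGroup E] [NormedAddCommGroup F]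
    (x : WithLp 2 (E × F)) : ‖x.snd‖ ≤ ‖x‖ := by
  have h := WithLp.prod_norm_sq_eq_of_L2 x
  have : ‖x.snd‖ ^ 2 ≤ ‖x‖ ^ 2 := by nlinarith [sq_nonneg ‖x.fst‖]
  exact le_of_sq_le_sq this (norm_nonneg _)

/-- Components of the points of a tube. -/
theorem tube_comp {m : ℕ} {δ : ℝ} (hδ1 : δ ≤ 1) {v : Base m} (hv : ‖v‖ ≤ 1)
    {a x : Space m} (hx : x ∈ tube δ (dir v) a) :
    |x.snd - a.snd| ≤ 3 / 2 ∧ ‖x.fst - a.fst - (x.snd - a.snd) • v‖ ≤ 2 * δ := by
  obtain ⟨h1, h2⟩ := hx
  set lam : ℝ := inner ℝ (x - a) (dir v) with hlam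
  set l : ℝ := √(1 + ‖v‖ ^ 2) with hl
  have hl1 : 1 ≤ l := Real.one_le_sqrt.mpr (by nlinarith [sq_nonneg ‖v‖])
  have hl0 : 0 < l := by linarith
  have ha := (norm_fst_le' ((x - a) - lam • dir v)).trans h2
  have hb := (norm_snd_le' ((x - a) - lam • dir v)).trans h2
  have e1 : ((x - a) - lam • dir v).fst = x.fst - a.fst - (lam * l⁻¹) • v := by
    unfold dir
    simp only [WithLp.sub_fst, WithLp.smul_fst, smul_smul, ← hl]
    rfl
  have e2 : ((x - a) - lam • dir v).snd = x.snd - a.snd - lam * l⁻¹ := by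
    unfold dir
    simp only [WithLp.sub_snd, WithLp.smul_snd, smul_eq_mul, ← hl]
    have : (WithLp.toLp 2 (v, (1:ℝ)) : Space m).snd = 1 := rfl
    rw [this]
    ring
  rw [e1] at ha
  rw [e2, Real.norm_eq_abs] at hb
  have hll : |lam * l⁻¹| ≤ 1 / 2 := by
    rw [abs_mul, abs_of_pos (inv_pos.2 hl0)]
    calc |lam| * l⁻¹ ≤ 1 / 2 * 1 := by
          apply mul_le_mul h1 (inv_le_one_of_one_le₀ hl1) (by positivity) (by norm_num)
      _ = 1 / 2 := by ring
  constructor
  · have e3 : x.snd - a.snd = (x.snd - a.snd - lam * l⁻¹) + lam * l⁻¹ := by ring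
    rw [e3]
    refine (abs_add_le _ _).trans ?_
    linarith
  · have e3 : x.fst - a.fst - (x.snd - a.snd) • v =
        (x.fst - a.fst - (lam * l⁻¹) • v) - (x.snd - a.snd - lam * l⁻¹) • v := by
      module
    rw [e3]
    refine (norm_sub_le _ _).trans ?_
    rw [norm_smul, Real.norm_eq_abs]
    have : |x.snd - a.snd - lam * l⁻¹| * ‖v‖ ≤ δ * 1 :=
      mul_le_mul hb hv (norm_nonneg _) ((abs_nonneg _).trans hb)
    linarith

theorem finrank_base (m : ℕ) : Module.finrank ℝ (Base m) = m + 1 := by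
  have h := (WithLp.linearEquiv 2 ℝ (Vec m × ℝ)).finrank_eq
  rw [h, Module.finrank_prod, finrank_euclideanSpace_fin, Module.finrank_self]

/-- the constant of the count -/
noncomputable def Cn (m : ℕ) : ℝ :=
  2 ^ (m + 2) * (volume (closedBall (0 : Vec m) 1)).toReal / (volume (ball (0 : Base m) 1)).toReal

/-- Separated points near a line. -/
theorem line_count {m : ℕ} (β γ : Vec m) {A : ℝ} (hA : 0 ≤ A) (hγ : ‖γ‖ ≤ A) {δ : ℝ} (hδ : 0 < δ)
    {κ : Type*} (F : Finset κ) (v : κ → Base m) (hsep : ∀ i ∈ F, ∀ j ∈ F, i ≠ j → δ ≤ ‖v i - v j‖)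
    (hline : ∀ i ∈ F, ∃ η : ℝ, ‖WithLp.toLp 2 (β + η • γ, η) - v i‖ < δ / 2) (c : ℝ) {k : ℝ}
    (hk : 0 ≤ k) (hc : ∀ i ∈ F, |(v i).snd - c| ≤ k * δ) :
    (F.card : ℝ) ≤ Cn m * (1 + A) ^ m * (k + 1) := by
  classical
  set V0 : ℝ := (volume (ball (0 : Base m) 1)).toReal with hV0
  have hV00 : 0 < V0 := ENNReal.toReal_pos (measure_ball_pos volume _ one_pos).ne'
    (measure_ball_lt_top).ne
  have hV0e : volume (ball (0 : Base m) 1) = ENNReal.ofReal V0 :=
    (ENNReal.ofReal_toReal (measure_ball_lt_top).ne).symm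
  set W0 : ℝ := (volume (closedBall (0 : Vec m) 1)).toReal with hW0
  have hW00 : 0 ≤ W0 := ENNReal.toReal_nonneg
  have hW0e : volume (closedBall (0 : Vec m) 1) = ENNReal.ofReal W0 :=
    (ENNReal.ofReal_toReal (measure_closedBall_lt_top).ne).symm
  set Q' : Set (Vec m × ℝ) := {p | |p.2 - c| ≤ (k + 1) * δ ∧ ‖p.1 - (β + p.2 • γ)‖ ≤ (1 + A) * δ}
    with hQ'
  have hQ'm : MeasurableSet Q' := by
    apply IsClosed.measurableSet
    apply IsClosed.and
    · exact isClosed_le (by fun_prop) continuous_const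
    · exact isClosed_le (by fun_prop) continuous_const
  set Q : Set (Base m) := {p | |p.snd - c| ≤ (k + 1) * δ ∧ ‖p.fst - (β + p.snd • γ)‖ ≤ (1 + A) * δ}
    with hQ
  have hmp := WithLp.volume_preserving_ofLp (Vec m) ℝ
  have hQQ : Q = (WithLp.ofLp : Base m → Vec m × ℝ) ⁻¹' Q' := rfl
  have hvolQ : volume Q = volume Q' := by
    rw [hQQ]
    exact hmp.measure_preimage hQ'm.nullMeasurableSet
  have hvolQ' : volume Q' ≤ ENNReal.ofReal (W0 * ((1 + A) * δ) ^ m * (2 * ((k + 1) * δ))) := by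
    rw [Measure.volume_eq_prod, Measure.prod_apply_symm hQ'm]
    calc ∫⁻ y, volume ((fun x => (x, y)) ⁻¹' Q')
        ≤ ∫⁻ y, (Icc (c - (k + 1) * δ) (c + (k + 1) * δ)).indicator
            (fun _ => ENNReal.ofReal (W0 * ((1 + A) * δ) ^ m)) y := by
          apply lintegral_mono
          intro y
          by_cases hy : y ∈ Icc (c - (k + 1) * δ) (c + (k + 1) * δ)
          · rw [indicator_of_mem hy]
            have hsub : (fun x => (x, y)) ⁻¹' Q' ⊆ closedBall (β + y • γ) ((1 + A) * δ) := by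
              intro x hx
              rw [mem_closedBall, dist_eq_norm]
              exact hx.2
            refine (measure_mono hsub).trans ?_
            rw [Measure.addHaar_closedBall' _ _ (by positivity), finrank_euclideanSpace_fin, hW0e,
              ← ENNReal.ofReal_mul (by positivity), mul_comm]
          · rw [indicator_of_notMem hy]
            show volume ((fun x => (x, y)) ⁻¹' Q') ≤ 0
            rw [nonpos_iff_eq_zero]
            have : (fun x => (x, y)) ⁻¹' Q' = ∅ := by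
              apply eq_empty_of_forall_notMem
              intro x hx
              apply hy
              have h1 : |y - c| ≤ (k + 1) * δ := hx.1
              rw [abs_le] at h1
              exact ⟨by linarith, by linarith⟩
            rw [this, measure_empty]
      _ = _ := by
          rw [lintegral_indicator_const measurableSet_Icc, Real.volume_Icc,
            ← ENNReal.ofReal_mul (by positivity)]
          congr 2
          ring
  have hdisj : Set.PairwiseDisjoint (F : Set κ) (fun i => ball (v i) (δ / 2)) := by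
    intro i hi j hj hij
    apply Set.disjoint_left.2
    intro w hwi hwj
    rw [mem_ball, dist_eq_norm] at hwi hwj
    have h1 := hsep i hi j hj hij
    have h2 : ‖v i - v j‖ ≤ ‖w - v j‖ + ‖w - v i‖ := by
      calc ‖v i - v j‖ = ‖(w - v j) - (w - v i)‖ := by congr 1; abel
        _ ≤ _ := norm_sub_le _ _
    linarith
  have hsub : (⋃ i ∈ F, ball (v i) (δ / 2)) ⊆ Q := by
    intro w hw
    rw [mem_iUnion₂] at hw
    obtain ⟨i, hi, hw⟩ := hw
    rw [mem_ball, dist_eq_norm] at hw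
    obtain ⟨η, hη⟩ := hline i hi
    have hw1 := (norm_fst_le' (w - v i)).trans_lt hw
    have hw2 := (norm_snd_le' (w - v i)).trans_lt hw
    have hη1 := (norm_fst_le' (WithLp.toLp 2 (β + η • γ, η) - v i)).trans_lt hη
    have hη2 := (norm_snd_le' (WithLp.toLp 2 (β + η • γ, η) - v i)).trans_lt hη
    simp only [WithLp.sub_fst, WithLp.sub_snd, Real.norm_eq_abs] at hw1 hw2 hη1 hη2
    have g1 : ‖(β + η • γ) - (v i).fst‖ < δ / 2 := hη1
    have g2 : |η - (v i).snd| < δ / 2 := hη2
    constructor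
    · have e : w.snd - c = (w.snd - (v i).snd) + ((v i).snd - c) := by ring
      rw [e]
      refine (abs_add_le _ _).trans ?_
      have := hc i hi
      linarith
    · have e : w.fst - (β + w.snd • γ) = (w.fst - (v i).fst) - ((β + η • γ) - (v i).fst) +
          (η - (v i).snd - (w.snd - (v i).snd)) • γ := by
        module
      rw [e]
      refine (norm_add_le _ _).trans ?_
      have h1 : ‖(w.fst - (v i).fst) - ((β + η • γ) - (v i).fst)‖ ≤ δ := by
        refine (norm_sub_le _ _).trans ?_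
        linarith
      have h2 : ‖(η - (v i).snd - (w.snd - (v i).snd)) • γ‖ ≤ δ * A := by
        rw [norm_smul, Real.norm_eq_abs]
        apply mul_le_mul _ hγ (norm_nonneg _) hδ.le
        refine (abs_sub _ _).trans ?_
        linarith
      linarith
  have hsum : (F.card : ℝ≥0∞) * ENNReal.ofReal ((δ / 2) ^ (m + 1) * V0) ≤
      ENNReal.ofReal (W0 * ((1 + A) * δ) ^ m * (2 * ((k + 1) * δ))) := by
    calc (F.card : ℝ≥0∞) * ENNReal.ofReal ((δ / 2) ^ (m + 1) * V0)
        = ∑ i ∈ F, volume (ball (v i) (δ / 2)) := by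
          rw [Finset.sum_congr rfl (fun i _ => show volume (ball (v i) (δ / 2)) =
            ENNReal.ofReal ((δ / 2) ^ (m + 1) * V0) by
              rw [Measure.addHaar_ball _ _ (by positivity), finrank_base, hV0e,
                ← ENNReal.ofReal_mul (by positivity)]), Finset.sum_const, nsmul_eq_mul]
      _ = volume (⋃ i ∈ F, ball (v i) (δ / 2)) :=
          (measure_biUnion_finset hdisj (fun i _ => measurableSet_ball)).symm
      _ ≤ volume Q := measure_mono hsub
      _ ≤ _ := by rw [hvolQ]; exact hvolQ'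
  rw [← ENNReal.ofReal_natCast, ← ENNReal.ofReal_mul (Nat.cast_nonneg _),
    ENNReal.ofReal_le_ofReal_iff (by positivity)] at hsum
  unfold Cn
  rw [← hV0, ← hW0]
  have h1 : (F.card : ℝ) * ((δ / 2) ^ (m + 1) * V0) =
      (F.card * V0) * (δ ^ (m + 1) / 2 ^ (m + 1)) := by
    rw [div_pow]; ring
  have h2 : W0 * ((1 + A) * δ) ^ m * (2 * ((k + 1) * δ)) =
      (2 ^ (m + 2) * W0 * (1 + A) ^ m * (k + 1)) * (δ ^ (m + 1) / 2 ^ (m + 1)) := by
    rw [mul_pow, pow_succ δ, pow_succ (2 : ℝ) (m + 1)]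
    field_simp
  rw [h1, h2] at hsum
  have h3 : (F.card : ℝ) * V0 ≤ 2 ^ (m + 2) * W0 * (1 + A) ^ m * (k + 1) :=
    le_of_mul_le_mul_right hsum (by positivity)
  rw [div_mul_eq_mul_div, div_mul_eq_mul_div, le_div_iff₀ hV00]
  linarith

end Pool.Agent.X160.Pf
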