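import Pool.Agent.X160.Pf.Cnt
set_option autoImplicit false

/-!
# Families of planes of bounded overlap
-/

open MeasureTheory Set Metric Filter
open scoped ENNReal NNReal

namespace Pool.Agent.X160.Pf

/-- The point of the plane `s` over `p`. -/
noncomputable def pt {m : ℕ} (α β γ : Vec m → Vec m) (p : ℝ × ℝ) (s : Vec m) : Vec m :=
  α s + p.1 • β s + p.2 • γ s

/-- The Jacobian. -/
noncomputable def jac {m : ℕ} (a b c : Vec m → Vec m →L[ℝ] Vec m) (p : ℝ × ℝ) (s : Vec m) : ℝ :=
  |(a s + p.1 • b s + p.2 • c s).det|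

/-- A differentiable family of planes of overlap at most `M` over `T`. -/
structure PF {m : ℕ} (M : ℕ) (A : ℝ) (T : Set (ℝ × ℝ)) (S : Set (Vec m)) (α β γ : Vec m → Vec m)
    (a b c : Vec m → Vec m →L[ℝ] Vec m) : Prop where
  ms : MeasurableSet S
  da : ∀ s ∈ S, HasFDerivWithinAt α (a s) S s
  db : ∀ s ∈ S, HasFDerivWithinAt β (b s) S s
  dc : ∀ s ∈ S, HasFDerivWithinAt γ (c s) S s
  ma : Measurable a
  mb : Measurable b
  mc : Measurable c
  mα : Measurable α
  mβ : Measurable β
  mγ : Measurable γ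
  mult : ∀ᵐ p : ℝ × ℝ, p ∈ T → ∀ᵐ z : Vec m, {s | s ∈ S ∧ pt α β γ p s = z}.encard ≤ M
  bd : ∀ s ∈ S, ‖γ s‖ ≤ A

variable {m M : ℕ} {A : ℝ} {T : Set (ℝ × ℝ)} {S : Set (Vec m)} {α β γ : Vec m → Vec m}
  {a b c : Vec m → Vec m →L[ℝ] Vec m}

theorem PF.mpt (H : PF M A T S α β γ a b c) :
    Measurable (fun q : (ℝ × ℝ) × Vec m => pt α β γ q.1 q.2) := by
  unfold pt
  have h1 : Measurable (fun q : (ℝ × ℝ) × Vec m => α q.2) := H.mα.comp measurable_snd
  have h2 : Measurable (fun q : (ℝ × ℝ) × Vec m => β q.2) := H.mβ.comp measurable_snd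
  have h3 : Measurable (fun q : (ℝ × ℝ) × Vec m => γ q.2) := H.mγ.comp measurable_snd
  have h4 : Measurable (fun q : (ℝ × ℝ) × Vec m => q.1.1) := by fun_prop
  have h5 : Measurable (fun q : (ℝ × ℝ) × Vec m => q.1.2) := by fun_prop
  exact (h1.add (h4.smul h2)).add (h5.smul h3)

theorem PF.mjac (H : PF M A T S α β γ a b c) :
    Measurable (fun q : (ℝ × ℝ) × Vec m => jac a b c q.1 q.2) := by
  unfold jac
  have h1 : Measurable (fun q : (ℝ × ℝ) × Vec m => a q.2) := H.ma.comp measurable_snd
  have h2 : Measurable (fun q : (ℝ × ℝ) × Vec m => b q.2) := H.mb.comp measurable_snd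
  have h3 : Measurable (fun q : (ℝ × ℝ) × Vec m => c q.2) := H.mc.comp measurable_snd
  have h4 : Measurable (fun q : (ℝ × ℝ) × Vec m => q.1.1) := by fun_prop
  have h5 : Measurable (fun q : (ℝ × ℝ) × Vec m => q.1.2) := by fun_prop
  have h6 := (h1.add (h4.smul h2)).add (h5.smul h3)
  exact (ContinuousLinearMap.continuous_det.measurable.comp h6).abs

theorem PF.mpt_left (H : PF M A T S α β γ a b c) (p : ℝ × ℝ) :
    Measurable (fun s => pt α β γ p s) := by
  have h := H.mpt
  generalize pt α β γ = f at h ⊢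
  exact h.comp (measurable_const.prodMk measurable_id)

theorem PF.mjac_left (H : PF M A T S α β γ a b c) (p : ℝ × ℝ) :
    Measurable (fun s => jac a b c p s) := by
  have h := H.mjac
  generalize jac a b c = f at h ⊢
  exact h.comp (measurable_const.prodMk measurable_id)

/-- The area inequality. -/
theorem PF.area (H : PF M A T S α β γ a b c) {p : ℝ × ℝ}
    (hp : ∀ᵐ z : Vec m, {s | s ∈ S ∧ pt α β γ p s = z}.encard ≤ M) (R : ℝ) (z : Vec m) :
    ∫⁻ s in S ∩ {s | pt α β γ p s ∈ closedBall z R}, ENNReal.ofReal (jac a b c p s) ≤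
      M * volume (closedBall z R) := by
  have h1 := Pool.Agent.H805R3.Kk.lintegral_comp_det_leW (volume : Measure (Vec m))
    (φ := fun s => pt α β γ p s) (φ' := fun s => a s + p.1 • b s + p.2 • c s) (s := S) (N := M)
    H.ms (fun s hs => ((H.da s hs).add ((H.db s hs).const_smul p.1)).add
      ((H.dc s hs).const_smul p.2))
    (by
      exact (H.ma.add (H.mb.const_smul p.1)).add (H.mc.const_smul p.2))
    (by
      filter_upwards [hp] with z hz
      refine le_trans (Set.encard_le_encard ?_) hz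
      rintro s ⟨h1, h2, _⟩
      exact ⟨h1, h2⟩)
    (H := (closedBall z R).indicator (fun _ => 1)) (measurable_const.indicator measurableSet_closedBall)
  rw [lintegral_indicator_const measurableSet_closedBall, one_mul] at h1
  refine le_trans (le_of_eq ?_) h1
  have hK : MeasurableSet {s | pt α β γ p s ∈ closedBall z R} :=
    (H.mpt_left p) measurableSet_closedBall
  rw [inter_comm, ← Measure.restrict_restrict hK, ← lintegral_indicator hK]
  apply lintegral_congr
  intro s
  by_cases hs : pt α β γ p s ∈ closedBall z R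
  · rw [indicator_of_mem (show s ∈ {s | pt α β γ p s ∈ closedBall z R} from hs),
      indicator_of_mem hs, one_mul]
    rfl
  · rw [indicator_of_notMem (show s ∉ {s | pt α β γ p s ∈ closedBall z R} from hs),
      indicator_of_notMem hs, zero_mul]

/-- Truncated Jacobian. -/
noncomputable def Wt (a b c : Vec m → Vec m →L[ℝ] Vec m) (τ : Vec m → ℝ) (p : ℝ × ℝ) (s : Vec m) : ℝ :=
  max (jac a b c p s) (τ s)

theorem PF.mWt (H : PF M A T S α β γ a b c) {τ : Vec m → ℝ} (hτ : Measurable τ) :
    Measurable (fun q : (ℝ × ℝ) × Vec m => Wt a b c τ q.1 q.2) :=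
  H.mjac.max (hτ.comp measurable_snd)

theorem PF.mWt_left (H : PF M A T S α β γ a b c) {τ : Vec m → ℝ} (hτ : Measurable τ) (p : ℝ × ℝ) :
    Measurable (fun s => Wt a b c τ p s) :=
  (H.mjac_left p).max hτ

/-- Pointwise bound. -/
theorem PF.point_bound (H : PF M A T S α β γ a b c) {p : ℝ × ℝ}
    (hp : ∀ᵐ z : Vec m, {s | s ∈ S ∧ pt α β γ p s = z}.encard ≤ M) (R : ℝ) {r : ℝ} (hr : 0 < r)
    {τ : Vec m → ℝ} (hτm : Measurable τ) (hτ : ∀ s, 0 < τ s) {S' : Set (Vec m)}
    (_hS' : MeasurableSet S') (hSS : S' ⊆ S) {f : Vec m → ℝ≥0∞} (hf : Measurable f) (z : Vec m) :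
    (∫⁻ s in S' ∩ {s | pt α β γ p s ∈ closedBall z R}, f s) ^ (r + 1) ≤
      (M * volume (closedBall z R) + ∫⁻ s in S', ENNReal.ofReal (τ s)) ^ r *
        ∫⁻ s in S' ∩ {s | pt α β γ p s ∈ closedBall z R},
          f s ^ (r + 1) * ENNReal.ofReal (Wt a b c τ p s) ^ (-r) := by
  set K := {s | pt α β γ p s ∈ closedBall z R} with hK
  have hKm : MeasurableSet K := (H.mpt_left p) measurableSet_closedBall
  have hWpos : ∀ s, 0 < Wt a b c τ p s := fun s => lt_max_of_lt_right (hτ s)
  have hH := Pool.Agent.TH221.Rough.holder_ww (volume.restrict (S' ∩ K)) hr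
    (w := fun s => ENNReal.ofReal (Wt a b c τ p s)) (f := f)
    (H.mWt_left hτm p).ennreal_ofReal.aemeasurable hf.aemeasurable
    (fun s => by
      rw [ne_eq, ENNReal.ofReal_eq_zero, not_le]
      exact hWpos s)
    (fun s => ENNReal.ofReal_ne_top)
  refine hH.trans ?_
  gcongr
  calc ∫⁻ s in S' ∩ K, ENNReal.ofReal (Wt a b c τ p s)
      ≤ ∫⁻ s in S' ∩ K, (ENNReal.ofReal (jac a b c p s) + ENNReal.ofReal (τ s)) := by
        apply lintegral_mono
        intro s
        show ENNReal.ofReal (max (jac a b c p s) (τ s)) ≤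
          ENNReal.ofReal (jac a b c p s) + ENNReal.ofReal (τ s)
        have hj : 0 ≤ jac a b c p s := abs_nonneg _
        rw [← ENNReal.ofReal_add hj (hτ s).le]
        apply ENNReal.ofReal_le_ofReal
        exact max_le (by linarith [hτ s]) (by linarith)
    _ = (∫⁻ s in S' ∩ K, ENNReal.ofReal (jac a b c p s)) + ∫⁻ s in S' ∩ K, ENNReal.ofReal (τ s) := by
        rw [lintegral_add_right _ hτm.ennreal_ofReal]
    _ ≤ M * volume (closedBall z R) + ∫⁻ s in S', ENNReal.ofReal (τ s) := by
        refine add_le_add ?_ (lintegral_mono_set inter_subset_left)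
        refine le_trans (lintegral_mono_set ?_) (H.area hp R z)
        exact inter_subset_inter_left _ hSS

/-- Integration over the plane coordinates `z`. -/
theorem PF.point_int (H : PF M A T S α β γ a b c) {p : ℝ × ℝ}
    (hp : ∀ᵐ z : Vec m, {s | s ∈ S ∧ pt α β γ p s = z}.encard ≤ M) (R : ℝ) {r : ℝ} (hr : 0 < r)
    {τ : Vec m → ℝ} (hτm : Measurable τ) (hτ : ∀ s, 0 < τ s) {S' : Set (Vec m)}
    (hS' : MeasurableSet S') (hSS : S' ⊆ S) {f : Vec m → ℝ≥0∞} (hf : Measurable f) :
    ∫⁻ z, (∫⁻ s in S' ∩ {s | pt α β γ p s ∈ closedBall z R}, f s) ^ (r + 1) ≤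
      (M * volume (closedBall (0 : Vec m) R) + ∫⁻ s in S', ENNReal.ofReal (τ s)) ^ r *
        (volume (closedBall (0 : Vec m) R) *
          ∫⁻ s in S', f s ^ (r + 1) * ENNReal.ofReal (Wt a b c τ p s) ^ (-r)) := by
  have hvol : ∀ x : Vec m, volume (closedBall x R) = volume (closedBall (0 : Vec m) R) :=
    fun x => Measure.addHaar_closedBall_center _ _ _
  set F : Vec m → ℝ≥0∞ := fun s => f s ^ (r + 1) * ENNReal.ofReal (Wt a b c τ p s) ^ (-r) with hF
  have hFm : Measurable F := (hf.pow_const _).mul ((H.mWt_left hτm p).ennreal_ofReal.pow_const _)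
  set Q : ℝ≥0∞ := (M * volume (closedBall (0 : Vec m) R) + ∫⁻ s in S', ENNReal.ofReal (τ s)) ^ r
    with hQ
  have h1 : ∀ z, (∫⁻ s in S' ∩ {s | pt α β γ p s ∈ closedBall z R}, f s) ^ (r + 1) ≤
      Q * ∫⁻ s in S', (closedBall (pt α β γ p s) R).indicator (fun _ => F s) z := by
    intro z
    have h2 := H.point_bound hp R hr hτm hτ hS' hSS hf z
    rw [hvol] at h2
    refine h2.trans (le_of_eq ?_)
    congr 1
    have hKm : MeasurableSet {s | pt α β γ p s ∈ closedBall z R} :=
      (H.mpt_left p) measurableSet_closedBall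
    rw [inter_comm, ← Measure.restrict_restrict hKm, ← lintegral_indicator hKm]
    apply lintegral_congr
    intro s
    by_cases hs : pt α β γ p s ∈ closedBall z R
    · rw [indicator_of_mem (show s ∈ {s | pt α β γ p s ∈ closedBall z R} from hs),
        indicator_of_mem (mem_closedBall_comm.1 hs)]
    · rw [indicator_of_notMem (show s ∉ {s | pt α β γ p s ∈ closedBall z R} from hs),
        indicator_of_notMem (fun h => hs (mem_closedBall_comm.1 h))]
  have hjm : Measurable (fun q : Vec m × Vec m =>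
      (closedBall (pt α β γ p q.2) R).indicator (fun _ => F q.2) q.1) := by
    have hSm : MeasurableSet {q : Vec m × Vec m | dist q.1 (pt α β γ p q.2) ≤ R} := by
      apply measurableSet_le _ measurable_const
      exact measurable_fst.dist ((H.mpt_left p).comp measurable_snd)
    have e : (fun q : Vec m × Vec m =>
        (closedBall (pt α β γ p q.2) R).indicator (fun _ => F q.2) q.1) =
        {q : Vec m × Vec m | dist q.1 (pt α β γ p q.2) ≤ R}.indicator (fun q => F q.2) := by
      funext q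
      by_cases h : dist q.1 (pt α β γ p q.2) ≤ R
      · rw [indicator_of_mem (mem_closedBall.2 h),
          indicator_of_mem (show q ∈ {q : Vec m × Vec m | dist q.1 (pt α β γ p q.2) ≤ R} from h)]
      · rw [indicator_of_notMem (fun h' => h (mem_closedBall.1 h')),
          indicator_of_notMem (show q ∉ {q : Vec m × Vec m | dist q.1 (pt α β γ p q.2) ≤ R} from h)]
    rw [e]
    exact (hFm.comp measurable_snd).indicator hSm
  calc ∫⁻ z, (∫⁻ s in S' ∩ {s | pt α β γ p s ∈ closedBall z R}, f s) ^ (r + 1)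
      ≤ ∫⁻ z, Q * ∫⁻ s in S', (closedBall (pt α β γ p s) R).indicator (fun _ => F s) z :=
        lintegral_mono h1
    _ = Q * ∫⁻ z, ∫⁻ s in S', (closedBall (pt α β γ p s) R).indicator (fun _ => F s) z :=
        lintegral_const_mul _ hjm.lintegral_prod_right'
    _ = Q * ∫⁻ s in S', ∫⁻ z, (closedBall (pt α β γ p s) R).indicator (fun _ => F s) z := by
        rw [lintegral_lintegral_swap hjm.aemeasurable]
    _ = Q * ∫⁻ s in S', volume (closedBall (0 : Vec m) R) * F s := by
        congr 1
        apply lintegral_congr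
        intro s
        rw [lintegral_indicator_const measurableSet_closedBall, hvol, mul_comm]
    _ = _ := by
        rw [lintegral_const_mul _ hFm]

end Pool.Agent.X160.Pf
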