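import Pool.Agent.X160.Pf.Lip
set_option autoImplicit false

/-!
# The inequality in `ℝ^(m+2)`
-/

open MeasureTheory Set Metric Filter
open scoped ENNReal NNReal

namespace Pool.Agent.X160.Pf

variable {m : ℕ}

theorem dir_sub_le (v w : Base m) : ‖dir v - dir w‖ ≤ ‖v - w‖ := by
  have hn : ∀ u : Base m, ‖(WithLp.toLp 2 (u, (1:ℝ)) : Space m)‖ = √(1 + ‖u‖ ^ 2) := by
    intro u
    rw [WithLp.prod_norm_eq_of_L2]
    congr 1
    show ‖u‖ ^ 2 + ‖(1:ℝ)‖ ^ 2 = 1 + ‖u‖ ^ 2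
    simp; ring
  have h1 : ∀ u : Base m, 1 ≤ ‖(WithLp.toLp 2 (u, (1:ℝ)) : Space m)‖ := by
    intro u
    rw [hn]
    exact Real.one_le_sqrt.2 (by nlinarith [sq_nonneg ‖u‖])
  have h2 := Pool.Agent.H810R3.Tub.radial (h1 v) (h1 w)
  have e : ∀ u : Base m, dir u = ‖(WithLp.toLp 2 (u, (1:ℝ)) : Space m)‖⁻¹ • (WithLp.toLp 2 (u, (1:ℝ)) : Space m) := by
    intro u
    rw [hn]
    rfl
  rw [e, e]
  refine h2.trans (le_of_eq ?_)
  rw [← WithLp.toLp_sub, WithLp.prod_norm_eq_of_L2]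
  show √(‖v - w‖ ^ 2 + ‖(1:ℝ) - 1‖ ^ 2) = ‖v - w‖
  simp

/-- the point over `p` with coordinate `z` -/
noncomputable def Psi (q : (ℝ × ℝ) × Vec m) : Space m :=
  WithLp.toLp 2 (WithLp.toLp 2 (q.2, q.1.2), q.1.1)

theorem Psi_mp : MeasurePreserving (Psi (m := m)) volume volume := by
  have h1 := measurePreserving_prodAssoc (volume : Measure ℝ) (volume : Measure ℝ)
    (volume : Measure (Vec m))
  have h2 := Measure.measurePreserving_swap (μ := (volume : Measure ℝ))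
    (ν := (volume : Measure ℝ).prod (volume : Measure (Vec m)))
  have h3 := (Measure.measurePreserving_swap (μ := (volume : Measure ℝ))
    (ν := (volume : Measure (Vec m)))).prod (MeasurePreserving.id (volume : Measure ℝ))
  have h4 := (WithLp.volume_preserving_toLp (Vec m) ℝ).prod (MeasurePreserving.id (volume : Measure ℝ))
  have h5 := WithLp.volume_preserving_toLp (Base m) ℝ
  exact h5.comp (h4.comp (h3.comp (h2.comp h1)))

theorem fubini_T {T : Set (ℝ × ℝ)} (hT : MeasurableSet T) {F : Space m → ℝ≥0∞}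
    (hF : Measurable F) :
    ∫⁻ x in {x : Space m | (x.snd, x.fst.snd) ∈ T}, F x = ∫⁻ p in T, ∫⁻ z, F (Psi (p, z)) := by
  have hmp := Psi_mp (m := m)
  have hs : MeasurableSet {x : Space m | (x.snd, x.fst.snd) ∈ T} := by
    have : Continuous (fun x : Space m => (x.snd, x.fst.snd)) := by fun_prop
    exact this.measurable hT
  rw [← hmp.setLIntegral_comp_preimage hs hF]
  have e : (Psi (m := m)) ⁻¹' {x : Space m | (x.snd, x.fst.snd) ∈ T} = T ×ˢ univ := by
    ext q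
    simp [Psi]
  rw [e, Measure.volume_eq_prod, ← Measure.prod_restrict, Measure.restrict_univ]
  exact lintegral_prod (fun q : (ℝ × ℝ) × Vec m => F (Psi q)) (hF.comp hmp.measurable).aemeasurable

theorem tube_closed_gen {E : Type*} [NormedAddCommGroup E] [InnerProductSpace ℝ E] (δ : ℝ)
    (e a : E) : IsClosed {y : E | |inner ℝ (y - a) e| ≤ 1 / 2 ∧
      ‖(y - a) - (inner ℝ (y - a) e : ℝ) • e‖ ≤ δ} := by
  apply IsClosed.and
  · exact isClosed_le (by fun_prop) continuous_const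
  · exact isClosed_le (by fun_prop) continuous_const

theorem tube_closed (δ : ℝ) (e a : Space m) : IsClosed (tube δ e a) := tube_closed_gen δ e a

/-- number of tubes containing a point -/
noncomputable def mult {ι : Type} [Fintype ι] (δ : ℝ) (v : ι → Base m) (a : ι → Space m)
    (x : Space m) : ℝ :=
  ∑ i, (tube δ (dir (v i)) (a i)).indicator (fun _ => (1 : ℝ)) x

theorem enorm_mult_le {ι : Type} [Fintype ι] {δ : ℝ} (hδ1 : δ ≤ 1) {v : ι → Base m}
    (hv : ∀ i, ‖v i‖ ≤ 1) (a : ι → Space m) (p : ℝ × ℝ) (z : Vec m) :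
    ‖mult δ v a (Psi (p, z))‖ₑ ≤ cnt δ v (fun i => (a i).snd) (fun i => (a i).fst.snd)
      (fun i => (a i).fst.fst) p z := by
  unfold mult cnt
  refine (enorm_sum_le _ _).trans (Finset.sum_le_sum fun i _ => ?_)
  by_cases hx : Psi (p, z) ∈ tube δ (dir (v i)) (a i)
  · have hP : (p, z) ∈ Pt δ v (fun i => (a i).snd) (fun i => (a i).fst.snd)
        (fun i => (a i).fst.fst) i := by
      obtain ⟨h1, h2⟩ := tube_comp hδ1 (hv i) hx
      have h3 := (norm_fst_le' _).trans h2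
      have h4 := (norm_snd_le' _).trans h2
      refine ⟨⟨h1, ?_⟩, h3⟩
      exact h4
    rw [indicator_of_mem hx, indicator_of_mem hP]
    simp
  · rw [indicator_of_notMem hx]
    simp

theorem mult_le_card {ι : Type} [Fintype ι] (δ : ℝ) (v : ι → Base m) (a : ι → Space m)
    (x : Space m) : ‖mult δ v a x‖ₑ ≤ ENNReal.ofReal (Fintype.card ι) := by
  unfold mult
  refine (enorm_sum_le _ _).trans ?_
  calc ∑ i, ‖(tube δ (dir (v i)) (a i)).indicator (fun _ => (1 : ℝ)) x‖ₑ ≤ ∑ _i : ι, 1 := by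
        apply Finset.sum_le_sum
        intro i _
        by_cases hx : x ∈ tube δ (dir (v i)) (a i)
        · rw [indicator_of_mem hx]; simp
        · rw [indicator_of_notMem hx]; simp
    _ = _ := by simp

/-- real bookkeeping -/
theorem book {M r V δ G N θ L d : ℝ} (hM : 0 ≤ M) (hV : 0 < V) (hδ : 0 < δ)
    (hN : 0 < N) (hθ : 0 < θ) (hL : 0 < L) :
    ((M + 1) * V) ^ r * V * (2 * G * (δ ^ (r + 1) * (N * (θ * L) / (δ * V)) ^ (r - 1 / d)) *
      (N * (θ * L))) =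
    (2 * G * (1 + M) ^ r * (V * δ) ^ (1 + 1 / d) * (θ ^ (-(1 / d)) * L ^ (-(1 / d))) *
      N ^ (r + 1 - 1 / d)) * (θ * L) ^ (r + 1) := by
  have hθL : 0 < θ * L := by positivity
  rw [Real.mul_rpow (by positivity) hV.le, Real.div_rpow (by positivity) (by positivity),
    Real.mul_rpow hN.le hθL.le, Real.mul_rpow hδ.le hV.le, Real.mul_rpow hV.le hδ.le,
    ← Real.mul_rpow hθ.le hL.le]
  have e1 : V ^ r * V / V ^ (r - 1 / d) = V ^ (1 + 1 / d) := by
    rw [div_eq_iff (by positivity)]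
    nth_rewrite 2 [← Real.rpow_one V]
    rw [← Real.rpow_add hV, ← Real.rpow_add hV]
    congr 1
    ring
  have e2 : δ ^ (r + 1) / δ ^ (r - 1 / d) = δ ^ (1 + 1 / d) := by
    rw [div_eq_iff (by positivity), ← Real.rpow_add hδ]
    congr 1
    ring
  have e3 : N ^ (r - 1 / d) * N = N ^ (r + 1 - 1 / d) := by
    nth_rewrite 2 [← Real.rpow_one N]
    rw [← Real.rpow_add hN]
    congr 1
    ring
  have e4 : (θ * L) ^ (r - 1 / d) * (θ * L) = (θ * L) ^ (-(1 / d)) * (θ * L) ^ (r + 1) := by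
    nth_rewrite 2 [← Real.rpow_one (θ * L)]
    rw [← Real.rpow_add hθL, ← Real.rpow_add hθL]
    congr 1
    ring
  rw [add_comm M 1]
  calc (1 + M) ^ r * V ^ r * V * (2 * G * (δ ^ (r + 1) * (N ^ (r - 1 / d) * (θ * L) ^ (r - 1 / d) /
        (δ ^ (r - 1 / d) * V ^ (r - 1 / d)))) * (N * (θ * L)))
      = 2 * G * (1 + M) ^ r * ((V ^ r * V / V ^ (r - 1 / d)) * (δ ^ (r + 1) / δ ^ (r - 1 / d))) *
        ((θ * L) ^ (r - 1 / d) * (θ * L)) * (N ^ (r - 1 / d) * N) := by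
        field_simp
    _ = _ := by
        rw [e1, e2, e3, e4]
        ring

/-- constant -/
noncomputable def Cf (m : ℕ) (r : ℝ) : ℝ :=
  2 * Dc m r (K1 m) (K2 m 0) *
    ((volume (closedBall (0 : Vec m) 1)).toReal * 3 ^ m) ^ (1 + 1 / ((m : ℝ) + 1)) *
    ((volume (ball (0 : Base m) 1)).toReal / 2 ^ (m + 2)) ^ (-(1 / ((m : ℝ) + 1)))

theorem Dc_le {m : ℕ} {r A : ℝ} (hr : 1 < ((m : ℝ) + 1) * r) (hr1 : r ≤ 1) (hA : 0 ≤ A) :
    Dc m r (K1 m) (K2 m A) ≤ Dc m r (K1 m) (K2 m 0) * (1 + A) ^ (2 * m) := by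
  obtain ⟨hε, hε1, ht0, ht1⟩ := ep_facts hr hr1
  have h21 : (1 : ℝ) < 2 ^ (ep m r) := Real.one_lt_rpow (by norm_num) hε
  have h22 : (0 : ℝ) < 2 ^ (ep m r) - 1 := by linarith
  have h1t : 0 < 1 - th0 m r (ep m r) := by linarith
  have hK1 : 0 < K1 m := by unfold K1; positivity
  have h1 : (1 : ℝ) ≤ (1 + A) ^ (2 * m) := one_le_pow₀ (by linarith)
  have e1 : Ce (ep m r) (K2 m A) = Ce (ep m r) (K2 m 0) * (1 + A) ^ (2 * m) := by
    unfold Ce K2
    rw [mul_pow, ← pow_mul, mul_comm m 2]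
    simp
    ring
  have hK20 : 1 ≤ K2 m 0 := by
    unfold K2
    simp
  have hCe := Ce_pos hε hK20
  unfold Dc
  rw [e1]
  set P : ℝ := (1 + A) ^ (2 * m) with hP
  set c : ℝ := Ce (ep m r) (K2 m 0) with hc
  set θ : ℝ := th0 m r (ep m r) / (1 - th0 m r (ep m r)) with hθ
  have hθ0 : 0 < θ := by positivity
  calc K1 m * (1 + (1 + 2 ^ m * (c * P)) * θ)
      ≤ K1 m * (1 * P + (1 * P + 2 ^ m * (c * P)) * θ) := by gcongr <;> linarith
    _ = _ := by ring

/-- **The inequality in integral form.** -/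
theorem final (hm : 1 ≤ m) {r q : ℝ} (hr : 1 < ((m : ℝ) + 1) * r) (hr1 : r ≤ 1)
    (hrq : r + 1 ≤ q) {Λ : ℝ≥0} {M : ℕ} {A K θ δ : ℝ} (hK : 0 ≤ K) (hθ : 0 < θ) (hδ : 0 < δ)
    (hδ1 : δ < 1) (hA0 : 0 ≤ A) {T : Set (ℝ × ℝ)} (hT : MeasurableSet T) {S : Set (Vec m)}
    (hS : MeasurableSet S) {α β γ : Vec m → Vec m}
    (hα : LipschitzOnWith Λ α S) (hβ : LipschitzOnWith Λ β S) (hγ : LipschitzOnWith Λ γ S)
    (hA : ∀ s ∈ S, ‖γ s‖ ≤ A) (hO : OverlapLE M T S α β γ) {ι : Type} [Fintype ι] (v : ι → Base m)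
    (x : ι → Space m) (hv : ∀ i, ‖v i‖ ≤ 1)
    (hsep : ∀ i j, i ≠ j → δ ≤ ‖dir (v i) - dir (v j)‖)
    (hc : ∀ i, Carried θ δ K S α β γ (v i) (x i)) :
    ∫⁻ y in {y : Space m | (y.snd, y.fst.snd) ∈ T}, ‖mult δ v x y‖ₑ ^ q ≤
      ENNReal.ofReal (Cf m r * (1 + M) ^ r * θ ^ (-(1 / ((m : ℝ) + 1))) *
        (1 + K + A) ^ (4 * m) * δ ^ ((m : ℝ) + 1) *
        (Fintype.card ι : ℝ) ^ (q - 1 / ((m : ℝ) + 1))) := by
  classical
  have hm0 : (0 : ℝ) < m := by exact_mod_cast hm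
  have hr0 : 0 < r := by
    by_contra h
    push Not at h
    nlinarith
  have hq0 : 0 < q := by linarith
  set d : ℝ := (m : ℝ) + 1 with hd
  have hd0 : 0 < d := by positivity
  have hd1 : 1 / d < 1 := by
    rw [div_lt_one hd0, hd]
    linarith
  rcases isEmpty_or_nonempty ι with hι | hι
  · have h0 : ∀ y, ‖mult δ v x y‖ₑ ^ q = 0 := by
      intro y
      unfold mult
      simp [hq0]
    simp [h0]
  -- constants
  set V0 : ℝ := (volume (ball (0 : Base m) 1)).toReal with hV0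
  have hV00 : 0 < V0 := ENNReal.toReal_pos (measure_ball_pos volume _ one_pos).ne'
    (measure_ball_lt_top).ne
  have hV0e : volume (ball (0 : Base m) 1) = ENNReal.ofReal V0 :=
    (ENNReal.ofReal_toReal (measure_ball_lt_top).ne).symm
  set W0 : ℝ := (volume (closedBall (0 : Vec m) 1)).toReal with hW0
  have hW00 : 0 < W0 := ENNReal.toReal_pos (measure_closedBall_pos volume _ one_pos).ne'
    (measure_closedBall_lt_top).ne
  have hW0e : volume (closedBall (0 : Vec m) 1) = ENNReal.ofReal W0 :=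
    (ENNReal.ofReal_toReal (measure_closedBall_lt_top).ne).symm
  set L : ℝ := (δ / 2) ^ (m + 1) * V0 / 2 with hL
  have hL0 : 0 < L := by positivity
  have hLe : volume (ball (0 : Base m) (δ / 2)) = ENNReal.ofReal (2 * L) := by
    rw [Measure.addHaar_ball _ _ (by positivity), finrank_base, hV0e,
      ← ENNReal.ofReal_mul (by positivity)]
    congr 1
    rw [hL]
    ring
  set R : ℝ := 3 * (1 + K + A) * δ with hR
  have hR0 : 0 < R := by positivity
  set V : ℝ := R ^ m * W0 with hV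
  have hVp : 0 < V := by positivity
  have hVe : volume (closedBall (0 : Vec m) (3 * (1 + K + A) * δ)) = ENNReal.ofReal V := by
    rw [Measure.addHaar_closedBall' _ _ hR0.le, finrank_euclideanSpace_fin, hW0e,
      ← ENNReal.ofReal_mul (by positivity)]
  have hsep' : ∀ i j, i ≠ j → δ ≤ ‖v i - v j‖ := fun i j hij => (hsep i j hij).trans (dir_sub_le _ _)
  obtain ⟨S₀, α', β', γ', a, b, c, φ, hPF, hTD⟩ := exists_data hK hθ hδ hS hα hβ hγ hA hO v x hsep'
    hc hL0 hLe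
  have hup := hTD.upper hPF hT hm hA0 hr hr1 hVp hVe
  set N : ℝ := (Fintype.card ι : ℝ) with hN
  have hN1 : 1 ≤ N := by
    rw [hN]
    exact_mod_cast Fintype.card_pos
  have hN0 : 0 < N := by linarith
  rw [book (Nat.cast_nonneg M) hVp hδ hN0 hθ hL0] at hup
  set F : ℝ≥0∞ := ∫⁻ p in T, ∫⁻ z, cnt δ v (fun i => (x i).snd) (fun i => (x i).fst.snd)
    (fun i => (x i).fst.fst) p z ^ (r + 1) with hF
  have hθL : 0 < θ * L := by positivity
  obtain ⟨hε, hε1, ht0, ht1⟩ := ep_facts hr hr1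
  have hDc : ∀ A', 0 ≤ A' → 0 < Dc m r (K1 m) (K2 m A') := by
    intro A' hA'
    have hC2 : 1 ≤ K2 m A' := by
      unfold K2
      have h1 : (1 : ℝ) ≤ max 1 (Cn m) := le_max_left _ _
      have h2 : (1 : ℝ) ≤ (1 + A') ^ m := one_le_pow₀ (by linarith)
      nlinarith
    have hCe := Ce_pos hε hC2
    have hK1 : 0 < K1 m := by unfold K1; positivity
    have h1t : 0 < 1 - th0 m r (ep m r) := by linarith
    unfold Dc
    positivity
  have hDcA := hDc A hA0
  have hDc0 := hDc 0 le_rfl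
  have hFle : F ≤ ENNReal.ofReal (2 * Dc m r (K1 m) (K2 m A) * (1 + M) ^ r *
      (V * δ) ^ (1 + 1 / d) * (θ ^ (-(1 / d)) * L ^ (-(1 / d))) * N ^ (r + 1 - 1 / d)) := by
    have h1 : F * ENNReal.ofReal ((θ * L) ^ (r + 1)) =
        ∫⁻ p in T, ∫⁻ z, (cnt δ v (fun i => (x i).snd) (fun i => (x i).fst.snd)
          (fun i => (x i).fst.fst) p z * ENNReal.ofReal (θ * L)) ^ (r + 1) := by
      rw [hF, ← lintegral_mul_const' _ _ ENNReal.ofReal_ne_top]
      apply lintegral_congr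
      intro p
      rw [← lintegral_mul_const' _ _ ENNReal.ofReal_ne_top]
      apply lintegral_congr
      intro z
      rw [ENNReal.mul_rpow_of_nonneg _ _ (by linarith), ENNReal.ofReal_rpow_of_pos hθL]
    rw [← h1, ENNReal.ofReal_mul (q := (θ * L) ^ (r + 1)) (by positivity)] at hup
    have hne : ENNReal.ofReal ((θ * L) ^ (r + 1)) ≠ 0 := by
      rw [ne_eq, ENNReal.ofReal_eq_zero, not_le]
      positivity
    exact (ENNReal.mul_le_mul_iff_left hne ENNReal.ofReal_ne_top).1 hup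
  -- the real constant
  have hKA : 1 ≤ 1 + K + A := by linarith
  have hreal : 2 * Dc m r (K1 m) (K2 m A) * (1 + M) ^ r *
      (V * δ) ^ (1 + 1 / d) * (θ ^ (-(1 / d)) * L ^ (-(1 / d))) ≤
      Cf m r * (1 + M) ^ r * θ ^ (-(1 / d)) * (1 + K + A) ^ (4 * m) * δ ^ d := by
    have e1 : V * δ = (W0 * 3 ^ m) * (1 + K + A) ^ m * δ ^ d := by
      rw [hV, hR, mul_pow, mul_pow, hd, Real.rpow_add hδ, Real.rpow_natCast, Real.rpow_one]
      ring
    have e2 : (V * δ) ^ (1 + 1 / d) ≤ (W0 * 3 ^ m) ^ (1 + 1 / d) * (1 + K + A) ^ (2 * m) *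
        δ ^ (d + 1) := by
      rw [e1, Real.mul_rpow (by positivity) (by positivity), Real.mul_rpow (by positivity)
        (by positivity), ← Real.rpow_mul hδ.le]
      have h1 : d * (1 + 1 / d) = d + 1 := by field_simp
      rw [h1]
      have h2 : ((1 + K + A) ^ m) ^ (1 + 1 / d) ≤ (1 + K + A) ^ (2 * m) := by
        have h3 : 1 ≤ (1 + K + A) ^ m := one_le_pow₀ hKA
        calc ((1 + K + A) ^ m) ^ (1 + 1 / d) ≤ ((1 + K + A) ^ m) ^ (2 : ℝ) :=
              Real.rpow_le_rpow_of_exponent_le h3 (by linarith)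
          _ = (1 + K + A) ^ (2 * m) := by
              rw [Real.rpow_two, ← pow_mul, mul_comm]
      gcongr
    have e3 : L ^ (-(1 / d)) = (V0 / 2 ^ (m + 2)) ^ (-(1 / d)) * δ⁻¹ := by
      have h1 : L = (V0 / 2 ^ (m + 2)) * δ ^ d := by
        rw [hL, div_pow, hd, Real.rpow_add hδ, Real.rpow_natCast, Real.rpow_one, pow_succ δ,
          pow_succ (2 : ℝ) (m + 1)]
        field_simp
      rw [h1, Real.mul_rpow (by positivity) (by positivity), ← Real.rpow_mul hδ.le]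
      have h2 : d * (-(1 / d)) = -1 := by field_simp
      rw [h2, Real.rpow_neg_one]
    have e4 : δ ^ (d + 1) * δ⁻¹ = δ ^ d := by
      rw [Real.rpow_add hδ, Real.rpow_one]
      field_simp
    have e5 := Dc_le hr hr1 hA0
    have e6 : (1 + A) ^ (2 * m) ≤ (1 + K + A) ^ (2 * m) := by
      apply pow_le_pow_left₀ (by linarith)
      linarith
    rw [e3]
    unfold Cf
    rw [← hV0, ← hW0, ← hd]
    calc 2 * Dc m r (K1 m) (K2 m A) * (1 + M) ^ r * (V * δ) ^ (1 + 1 / d) *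
          (θ ^ (-(1 / d)) * ((V0 / 2 ^ (m + 2)) ^ (-(1 / d)) * δ⁻¹))
        ≤ 2 * (Dc m r (K1 m) (K2 m 0) * (1 + K + A) ^ (2 * m)) * (1 + M) ^ r *
          ((W0 * 3 ^ m) ^ (1 + 1 / d) * (1 + K + A) ^ (2 * m) * δ ^ (d + 1)) *
          (θ ^ (-(1 / d)) * ((V0 / 2 ^ (m + 2)) ^ (-(1 / d)) * δ⁻¹)) := by
          have e7 : Dc m r (K1 m) (K2 m A) ≤ Dc m r (K1 m) (K2 m 0) * (1 + K + A) ^ (2 * m) :=
            e5.trans (by gcongr)
          gcongr
      _ = 2 * Dc m r (K1 m) (K2 m 0) * (W0 * 3 ^ m) ^ (1 + 1 / d) *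
          (V0 / 2 ^ (m + 2)) ^ (-(1 / d)) * (1 + M) ^ r * θ ^ (-(1 / d)) *
          ((1 + K + A) ^ (2 * m) * (1 + K + A) ^ (2 * m)) * (δ ^ (d + 1) * δ⁻¹) := by ring
      _ = _ := by
          rw [e4, ← pow_add]
          congr 3
          ring
  -- from `cnt` to `mult`
  have hmm : Measurable (fun y => ‖mult δ v x y‖ₑ ^ q) := by
    have : Measurable (mult δ v x) := by
      unfold mult
      apply Finset.measurable_sum
      intro i _
      exact measurable_const.indicator (tube_closed _ _ _).measurableSet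
    exact this.enorm.pow_const _
  rw [fubini_T hT hmm]
  have hpt : ∀ p z, ‖mult δ v x (Psi (p, z))‖ₑ ^ q ≤ ENNReal.ofReal (N ^ (q - (r + 1))) *
      cnt δ v (fun i => (x i).snd) (fun i => (x i).fst.snd) (fun i => (x i).fst.fst) p z ^ (r + 1) := by
    intro p z
    have h1 := enorm_mult_le hδ1.le hv x p z
    have h2 := mult_le_card δ v x (Psi (p, z))
    have h3 : ‖mult δ v x (Psi (p, z))‖ₑ ^ q = ‖mult δ v x (Psi (p, z))‖ₑ ^ (q - (r + 1)) *
        ‖mult δ v x (Psi (p, z))‖ₑ ^ (r + 1) := by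
      rw [← ENNReal.rpow_add_of_nonneg _ _ (by linarith) (by linarith)]
      congr 1
      ring
    rw [h3]
    apply mul_le_mul'
    · rw [← ENNReal.ofReal_rpow_of_pos hN0]
      exact ENNReal.rpow_le_rpow h2 (by linarith)
    · exact ENNReal.rpow_le_rpow h1 (by linarith)
  calc ∫⁻ p in T, ∫⁻ z, ‖mult δ v x (Psi (p, z))‖ₑ ^ q
      ≤ ∫⁻ p in T, ∫⁻ z, ENNReal.ofReal (N ^ (q - (r + 1))) *
        cnt δ v (fun i => (x i).snd) (fun i => (x i).fst.snd) (fun i => (x i).fst.fst) p z ^ (r + 1) :=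
        lintegral_mono fun p => lintegral_mono fun z => hpt p z
    _ = ENNReal.ofReal (N ^ (q - (r + 1))) * F := by
        rw [hF, ← lintegral_const_mul' _ _ ENNReal.ofReal_ne_top]
        apply lintegral_congr
        intro p
        rw [← lintegral_const_mul' _ _ ENNReal.ofReal_ne_top]
    _ ≤ ENNReal.ofReal (N ^ (q - (r + 1))) * ENNReal.ofReal (Cf m r * (1 + M) ^ r *
          θ ^ (-(1 / d)) * (1 + K + A) ^ (4 * m) * δ ^ d * N ^ (r + 1 - 1 / d)) := by
        gcongr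
        refine hFle.trans (ENNReal.ofReal_le_ofReal ?_)
        gcongr
    _ = _ := by
        rw [← ENNReal.ofReal_mul (by positivity)]
        congr 1
        have e : N ^ (q - (r + 1)) * N ^ (r + 1 - 1 / d) = N ^ (q - 1 / d) := by
          rw [← Real.rpow_add hN0]
          congr 1
          ring
        rw [← e]
        ring

end Pool.Agent.X160.Pf
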