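import Pool.Agent.X160.Pf.Leaf
import Pool.Agent.TH221.Rough.Tubes
set_option autoImplicit false

/-!
# Geometry of tubes in planes
-/

open MeasureTheory Set Metric
open scoped ENNReal NNReal

namespace Pool.Agent.X160.Pf

/-- Euclidean space `ℝ^m`. -/
abbrev Vec (m : ℕ) : Type := EuclideanSpace ℝ (Fin m)

/-- `ℝ^(m+1) = ℝ^m × ℝ` -/
abbrev Base (m : ℕ) : Type := WithLp 2 (Vec m × ℝ)

theorem det_shear {m : ℕ} (B : Vec m →L[ℝ] Vec m) (g : Vec m)
    (L : (Vec m × ℝ) →L[ℝ] (Vec m × ℝ)) (hL : ∀ x h, L (x, h) = (B x + h • g, h)) :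
    L.det = B.det := by
  set b := (EuclideanSpace.basisFun (Fin m) ℝ).toBasis with hb
  set b' := Module.Basis.singleton Unit ℝ with hb'
  have h1 : LinearMap.toMatrix (b.prod b') (b.prod b') (L : (Vec m × ℝ) →ₗ[ℝ] (Vec m × ℝ)) =
      Matrix.fromBlocks (LinearMap.toMatrix b b (B : Vec m →ₗ[ℝ] Vec m))
        (Matrix.of fun i _ => b.repr g i) 0 1 := by
    ext i j
    rcases i with i | i <;> rcases j with j | j
    · simp [LinearMap.toMatrix_apply, hL, Module.Basis.prod_apply]
    · simp [LinearMap.toMatrix_apply, hL, Module.Basis.prod_apply, hb']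
    · simp [LinearMap.toMatrix_apply, hL, Module.Basis.prod_apply]
    · simp [LinearMap.toMatrix_apply, hL, Module.Basis.prod_apply, hb']
  show LinearMap.det (L : (Vec m × ℝ) →ₗ[ℝ] (Vec m × ℝ)) = LinearMap.det (B : Vec m →ₗ[ℝ] Vec m)
  rw [← LinearMap.det_toMatrix (b.prod b'), h1, Matrix.det_fromBlocks_zero₂₁, Matrix.det_one,
    mul_one, LinearMap.det_toMatrix]

/-- The set where the determinant of a pencil is small. -/
theorem root_vol {m : ℕ} (hm : 1 ≤ m) (A₀ B₀ : Vec m →L[ℝ] Vec m) (hB : B₀.det ≠ 0) {ρ : ℝ}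
    (hρ : 0 < ρ) :
    volume {t : ℝ | |(A₀ + t • B₀).det| ≤ 2 * |B₀.det| * ρ ^ m} ≤
      ENNReal.ofReal (4 * m * ρ) := by
  set e := B₀.toContinuousLinearEquivOfDetNeZero hB with he
  set L : Vec m →L[ℝ] Vec m := (e.symm : Vec m →L[ℝ] Vec m).comp A₀ with hL
  have heB : (e : Vec m →L[ℝ] Vec m) = B₀ := by
    ext1 x
    simp [he]
  obtain ⟨μ, hμc, hμ⟩ := Pool.Agent.H803R2.Kak.det_centers L
  rw [finrank_euclideanSpace_fin] at hμc
  have hfac : ∀ t : ℝ, (A₀ + t • B₀).det = B₀.det * (L + t • ContinuousLinearMap.id ℝ (Vec m)).det := by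
    intro t
    have h1 : A₀ + t • B₀ = B₀.comp (L + t • ContinuousLinearMap.id ℝ (Vec m)) := by
      ext1 x
      have h2 : B₀ (e.symm (A₀ x)) = A₀ x := by
        rw [← heB]
        exact e.apply_symm_apply _
      simp [hL, h2]
    rw [h1]
    show LinearMap.det ((B₀ : Vec m →ₗ[ℝ] Vec m) ∘ₗ
      ((L + t • ContinuousLinearMap.id ℝ (Vec m) : Vec m →L[ℝ] Vec m) : Vec m →ₗ[ℝ] Vec m)) = _
    rw [LinearMap.det_comp]
  have hsub : {t : ℝ | |(A₀ + t • B₀).det| ≤ 2 * |B₀.det| * ρ ^ m} ⊆
      ⋃ c ∈ μ.toFinset, closedBall c (2 * ρ) := by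
    intro t ht
    have ht' : |(A₀ + t • B₀).det| ≤ 2 * |B₀.det| * ρ ^ m := ht
    rw [hfac, abs_mul] at ht'
    have hB0 : 0 < |B₀.det| := abs_pos.2 hB
    have h1 : |(L + t • ContinuousLinearMap.id ℝ (Vec m)).det| ≤ 2 * ρ ^ m := by
      have : |B₀.det| * |(L + t • ContinuousLinearMap.id ℝ (Vec m)).det| ≤
          |B₀.det| * (2 * ρ ^ m) := by linarith
      exact le_of_mul_le_mul_left this hB0
    have h2 := (hμ t).trans h1
    have hne : μ.map (fun c => |t - c|) ≠ 0 := by
      intro h0
      have : (μ.map (fun c => |t - c|)).card = 0 := by rw [h0]; rfl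
      rw [Multiset.card_map, hμc] at this
      omega
    obtain ⟨x, hx, hxp⟩ := Pool.Agent.H810R3.Tub.exists_pow_le (μ.map (fun c => |t - c|)) hne (by
      intro x hx
      obtain ⟨c, _, rfl⟩ := Multiset.mem_map.1 hx
      exact abs_nonneg _)
    obtain ⟨c, hc, rfl⟩ := Multiset.mem_map.1 hx
    rw [Multiset.card_map, hμc] at hxp
    rw [mem_iUnion₂]
    refine ⟨c, Multiset.mem_toFinset.2 hc, ?_⟩
    rw [mem_closedBall, Real.dist_eq]
    have h3 : |t - c| ^ m ≤ (2 * ρ) ^ m := by
      refine (hxp.trans h2).trans ?_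
      rw [mul_pow]
      have : (2 : ℝ) ^ 1 ≤ 2 ^ m := pow_le_pow_right₀ (by norm_num) hm
      have hp : 0 < ρ ^ m := by positivity
      nlinarith
    exact le_of_pow_le_pow_left₀ (by omega) (by positivity) h3
  calc volume {t : ℝ | |(A₀ + t • B₀).det| ≤ 2 * |B₀.det| * ρ ^ m}
      ≤ volume (⋃ c ∈ μ.toFinset, closedBall c (2 * ρ)) := measure_mono hsub
    _ ≤ ∑ c ∈ μ.toFinset, volume (closedBall c (2 * ρ)) := measure_biUnion_finset_le _ _
    _ = ∑ c ∈ μ.toFinset, ENNReal.ofReal (4 * ρ) := by
        apply Finset.sum_congr rfl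
        intro c _
        rw [Real.volume_closedBall]
        congr 1
        ring
    _ = (μ.toFinset.card : ℝ≥0∞) * ENNReal.ofReal (4 * ρ) := by
        rw [Finset.sum_const, nsmul_eq_mul]
    _ ≤ (m : ℝ≥0∞) * ENNReal.ofReal (4 * ρ) := by
        gcongr
        calc μ.toFinset.card ≤ μ.card := Multiset.toFinset_card_le _
          _ = m := hμc
    _ = ENNReal.ofReal (4 * m * ρ) := by
        rw [← ENNReal.ofReal_natCast, ← ENNReal.ofReal_mul (Nat.cast_nonneg _)]
        congr 1
        ring

/-- The planar trace of a tube. -/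
def trace (δ t₀ Y η : ℝ) : Set (ℝ × ℝ) := {p | |p.1 - t₀| ≤ 3 / 2 ∧ |p.2 - Y - (p.1 - t₀) * η| ≤ 2 * δ}

theorem trace_closed (δ t₀ Y η : ℝ) : IsClosed (trace δ t₀ Y η) := by
  apply IsClosed.and
  · exact isClosed_le (by fun_prop) continuous_const
  · exact isClosed_le (by fun_prop) continuous_const

theorem trace_meas (δ t₀ Y η : ℝ) : MeasurableSet (trace δ t₀ Y η) :=
  (trace_closed δ t₀ Y η).measurableSet

/-- The part of the trace where the determinant is small. -/
theorem trace_root {m : ℕ} (hm : 1 ≤ m) (a b c : Vec m →L[ℝ] Vec m) {δ t₀ Y η η' ρ : ℝ}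
    (hδ : 0 < δ) (hη : |η - η'| ≤ δ / 2) (hdet : (b + η' • c).det ≠ 0) (hρ : 0 < ρ) :
    volume (trace δ t₀ Y η ∩
      {p : ℝ × ℝ | |(a + p.1 • b + p.2 • c).det| ≤ 2 * |(b + η' • c).det| * ρ ^ m}) ≤
      ENNReal.ofReal (24 * m * δ * ρ) := by
  set S := trace δ t₀ Y η ∩
      {p : ℝ × ℝ | |(a + p.1 • b + p.2 • c).det| ≤ 2 * |(b + η' • c).det| * ρ ^ m} with hS
  have hcont : Continuous (fun p : ℝ × ℝ => |(a + p.1 • b + p.2 • c).det|) := by
    apply Continuous.abs
    apply ContinuousLinearMap.continuous_det.comp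
    fun_prop
  have hSm : MeasurableSet S :=
    (trace_meas _ _ _ _).inter (measurableSet_le hcont.measurable measurable_const)
  set S' : Set (ℝ × ℝ) := (fun p : ℝ × ℝ => (p.1, p.2 + p.1 * η')) ⁻¹' S with hS'
  have hmap : Measurable (fun p : ℝ × ℝ => (p.1, p.2 + p.1 * η')) := by fun_prop
  have hSm' : MeasurableSet S' := hmap hSm
  have hvol : volume S = volume S' := by
    rw [Measure.volume_eq_prod, Measure.prod_apply hSm, Measure.prod_apply hSm']
    apply lintegral_congr
    intro t
    have : Prod.mk t ⁻¹' S' = (fun y => y + t * η') ⁻¹' (Prod.mk t ⁻¹' S) := rfl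
    rw [this, measure_preimage_add_right]
  set c0 : ℝ := Y - t₀ * η - t₀ * (η' - η) with hc0
  have hsl : ∀ y0 : ℝ, volume ((fun t => (t, y0)) ⁻¹' S') ≤
      (Icc (c0 - 3 * δ) (c0 + 3 * δ)).indicator (fun _ => ENNReal.ofReal (4 * m * ρ)) y0 := by
    intro y0
    by_cases hy : y0 ∈ Icc (c0 - 3 * δ) (c0 + 3 * δ)
    · rw [indicator_of_mem hy]
      refine le_trans (measure_mono ?_) (root_vol hm (a + y0 • c) (b + η' • c) hdet hρ)
      intro t ht
      have h1 : (t, y0 + t * η') ∈ S := ht
      have h2 := h1.2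
      show |(a + y0 • c + t • (b + η' • c)).det| ≤ 2 * |(b + η' • c).det| * ρ ^ m
      have e : a + y0 • c + t • (b + η' • c) = a + t • b + (y0 + t * η') • c := by
        module
      rw [e]
      exact h2
    · rw [indicator_of_notMem hy]
      rw [nonpos_iff_eq_zero]
      have : (fun t => (t, y0)) ⁻¹' S' = ∅ := by
        apply eq_empty_of_forall_notMem
        intro t ht
        apply hy
        have h1 : (t, y0 + t * η') ∈ S := ht
        obtain ⟨h3, h4⟩ := h1.1
        have h3' : |t - t₀| ≤ 3 / 2 := h3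
        have h4' : |y0 + t * η' - Y - (t - t₀) * η| ≤ 2 * δ := h4
        have e : y0 - c0 = (y0 + t * η' - Y - (t - t₀) * η) + (t - t₀) * (η - η') := by
          rw [hc0]; ring
        have h5 : |(t - t₀) * (η - η')| ≤ 3 / 2 * (δ / 2) := by
          rw [abs_mul]
          exact mul_le_mul h3' hη (abs_nonneg _) (by norm_num)
        have h6 : |y0 - c0| ≤ 3 * δ := by
          rw [e]
          refine (abs_add_le _ _).trans ?_
          linarith
        rw [abs_le] at h6
        exact ⟨by linarith, by linarith⟩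
      rw [this, measure_empty]
  rw [hvol, Measure.volume_eq_prod, Measure.prod_apply_symm hSm']
  calc ∫⁻ y0, volume ((fun t => (t, y0)) ⁻¹' S')
      ≤ ∫⁻ y0, (Icc (c0 - 3 * δ) (c0 + 3 * δ)).indicator (fun _ => ENNReal.ofReal (4 * m * ρ)) y0 :=
        lintegral_mono hsl
    _ = ENNReal.ofReal (4 * m * ρ) * ENNReal.ofReal (6 * δ) := by
        rw [lintegral_indicator_const measurableSet_Icc, Real.volume_Icc]
        congr 2
        ring
    _ = ENNReal.ofReal (24 * m * δ * ρ) := by
        rw [← ENNReal.ofReal_mul (by positivity)]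
        congr 1
        ring

/-- Two traces. -/
theorem trace_inter {δ t₀ Y η t₁ Y₁ η₁ : ℝ} (hδ : 0 < δ) :
    volume (trace δ t₀ Y η ∩ trace δ t₁ Y₁ η₁) ≤
      ENNReal.ofReal (64 * δ * (1 + |η - η₁| / δ)⁻¹) := by
  set S := trace δ t₀ Y η ∩ trace δ t₁ Y₁ η₁ with hS
  have hSm : MeasurableSet S := (trace_meas _ _ _ _).inter (trace_meas _ _ _ _)
  have hslice : ∀ t : ℝ, volume (Prod.mk t ⁻¹' S) ≤ ENNReal.ofReal (4 * δ) := by
    intro t
    have hsub : Prod.mk t ⁻¹' S ⊆ Icc (Y + (t - t₀) * η - 2 * δ) (Y + (t - t₀) * η + 2 * δ) := by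
      intro y hy
      have h1 : |y - Y - (t - t₀) * η| ≤ 2 * δ := hy.1.2
      rw [abs_le] at h1
      exact ⟨by linarith, by linarith⟩
    refine (measure_mono hsub).trans ?_
    rw [Real.volume_Icc]
    apply ENNReal.ofReal_le_ofReal
    linarith
  -- first bound
  have hb1 : volume S ≤ ENNReal.ofReal (12 * δ) := by
    rw [Measure.volume_eq_prod, Measure.prod_apply hSm]
    calc ∫⁻ t, volume (Prod.mk t ⁻¹' S)
        ≤ ∫⁻ t, (Icc (t₀ - 3 / 2) (t₀ + 3 / 2)).indicator (fun _ => ENNReal.ofReal (4 * δ)) t := by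
          apply lintegral_mono
          intro t
          by_cases ht : t ∈ Icc (t₀ - 3 / 2) (t₀ + 3 / 2)
          · rw [indicator_of_mem ht]
            exact hslice t
          · rw [indicator_of_notMem ht]
            show volume (Prod.mk t ⁻¹' S) ≤ 0
            rw [nonpos_iff_eq_zero]
            have : Prod.mk t ⁻¹' S = ∅ := by
              apply eq_empty_of_forall_notMem
              intro y hy
              apply ht
              have h1 : |t - t₀| ≤ 3 / 2 := hy.1.1
              rw [abs_le] at h1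
              exact ⟨by linarith, by linarith⟩
            rw [this, measure_empty]
      _ = ENNReal.ofReal (12 * δ) := by
          rw [lintegral_indicator_const measurableSet_Icc, Real.volume_Icc,
            ← ENNReal.ofReal_mul (by positivity)]
          congr 1
          ring
  by_cases hk : |η - η₁| / δ ≤ 1
  · refine hb1.trans (ENNReal.ofReal_le_ofReal ?_)
    have h1 : 0 ≤ |η - η₁| / δ := by positivity
    rw [← div_eq_mul_inv, le_div_iff₀ (by linarith)]
    nlinarith
  · push Not at hk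
    have hη : 0 < |η - η₁| := by
      by_contra hc
      push Not at hc
      have : |η - η₁| = 0 := le_antisymm hc (abs_nonneg _)
      rw [this, zero_div] at hk
      linarith
    have hηne : η - η₁ ≠ 0 := abs_pos.1 hη
    set τ : ℝ := (Y₁ - Y + t₀ * η - t₁ * η₁) / (η - η₁) with hτ
    have hb2 : volume S ≤ ENNReal.ofReal (32 * δ * δ / |η - η₁|) := by
      rw [Measure.volume_eq_prod, Measure.prod_apply hSm]
      calc ∫⁻ t, volume (Prod.mk t ⁻¹' S)
          ≤ ∫⁻ t, (Icc (τ - 4 * δ / |η - η₁|) (τ + 4 * δ / |η - η₁|)).indicator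
              (fun _ => ENNReal.ofReal (4 * δ)) t := by
            apply lintegral_mono
            intro t
            by_cases ht : t ∈ Icc (τ - 4 * δ / |η - η₁|) (τ + 4 * δ / |η - η₁|)
            · rw [indicator_of_mem ht]
              exact hslice t
            · rw [indicator_of_notMem ht]
              show volume (Prod.mk t ⁻¹' S) ≤ 0
              rw [nonpos_iff_eq_zero]
              have : Prod.mk t ⁻¹' S = ∅ := by
                apply eq_empty_of_forall_notMem
                intro y hy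
                apply ht
                have h1 : |y - Y - (t - t₀) * η| ≤ 2 * δ := hy.1.2
                have h2 : |y - Y₁ - (t - t₁) * η₁| ≤ 2 * δ := hy.2.2
                have h3 : (η - η₁) * (t - τ) =
                    (y - Y₁ - (t - t₁) * η₁) - (y - Y - (t - t₀) * η) := by
                  rw [hτ]
                  field_simp
                  ring
                have h4 : |η - η₁| * |t - τ| ≤ 4 * δ := by
                  rw [← abs_mul, h3]
                  refine (abs_sub _ _).trans ?_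
                  linarith
                have h5 : |t - τ| ≤ 4 * δ / |η - η₁| := by
                  rw [le_div_iff₀ hη]
                  linarith
                rw [abs_le] at h5
                exact ⟨by linarith, by linarith⟩
              rw [this, measure_empty]
        _ = ENNReal.ofReal (32 * δ * δ / |η - η₁|) := by
            rw [lintegral_indicator_const measurableSet_Icc, Real.volume_Icc,
              ← ENNReal.ofReal_mul (by positivity)]
            congr 1
            ring
    refine hb2.trans (ENNReal.ofReal_le_ofReal ?_)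
    rw [lt_div_iff₀ hδ, one_mul] at hk
    have e1 : (1 + |η - η₁| / δ)⁻¹ = δ / (δ + |η - η₁|) := by
      field_simp
    rw [e1, mul_div_assoc', div_le_div_iff₀ hη (by positivity)]
    have h6 : 0 < δ * δ := by positivity
    nlinarith

end Pool.Agent.X160.Pf
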