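import Pool.Agent.X160.Pf.Sums
set_option autoImplicit false

/-!
# The leaf estimate
-/

open MeasureTheory Set Metric
open scoped ENNReal NNReal

namespace Pool.Agent.X160.Pf

theorem kap {m : ℕ} {ρ A B ε : ℝ} (hρ : 0 < ρ) (hA : 0 < A) (hB : 0 < B) (hε : 0 ≤ ε)
    (hε1 : ε ≤ 1) (h : 1 ≤ ρ ^ (m + 1) * B) :
    min (ρ ^ m)⁻¹ (B / A) * (max 1 (A * ρ)) ^ ε ≤ (ρ ^ m)⁻¹ * (ρ ^ (m + 1) * B) ^ ε := by
  rcases le_total (A * ρ) 1 with h1 | h1
  · rw [max_eq_left h1, Real.one_rpow, mul_one]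
    have h2 : 1 ≤ (ρ ^ (m + 1) * B) ^ ε := Real.one_le_rpow h hε
    calc min (ρ ^ m)⁻¹ (B / A) ≤ (ρ ^ m)⁻¹ := min_le_left _ _
      _ = (ρ ^ m)⁻¹ * 1 := (mul_one _).symm
      _ ≤ _ := by gcongr
  · rw [max_eq_right h1]
    have e1 : ρ ^ (m + 1) * B = (B / A * ρ ^ m) * (A * ρ) := by
      rw [pow_succ]
      field_simp
    rw [e1, Real.mul_rpow (x := B / A * ρ ^ m) (y := A * ρ) (by positivity) (by positivity),
      ← mul_assoc]
    apply mul_le_mul_of_nonneg_right _ (by positivity)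
    have hx : 0 < B / A * ρ ^ m := by positivity
    rcases le_total (B / A * ρ ^ m) 1 with h2 | h2
    · have h3 : B / A * ρ ^ m ≤ (B / A * ρ ^ m) ^ ε := by
        calc B / A * ρ ^ m = (B / A * ρ ^ m) ^ (1 : ℝ) := (Real.rpow_one _).symm
          _ ≤ _ := Real.rpow_le_rpow_of_exponent_ge hx h2 hε1
      calc min (ρ ^ m)⁻¹ (B / A) ≤ B / A := min_le_right _ _
        _ = (ρ ^ m)⁻¹ * (B / A * ρ ^ m) := by field_simp
        _ ≤ _ := by gcongr
    · have h3 : 1 ≤ (B / A * ρ ^ m) ^ ε := Real.one_le_rpow h2 hε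
      calc min (ρ ^ m)⁻¹ (B / A) ≤ (ρ ^ m)⁻¹ := min_le_left _ _
        _ = (ρ ^ m)⁻¹ * 1 := (mul_one _).symm
        _ ≤ _ := by gcongr

theorem pow_split {f lam r : ℝ} (hf : 0 ≤ f) (hl : 0 < lam) (hr : 0 < r) (hr1 : r ≤ 1) :
    f ^ r ≤ lam ^ r + lam ^ (r - 1) * f := by
  rcases le_total f lam with h | h
  · have h1 : f ^ r ≤ lam ^ r := Real.rpow_le_rpow hf h hr.le
    have h2 : 0 ≤ lam ^ (r - 1) * f := by positivity
    linarith
  · have hf0 : 0 < f := lt_of_lt_of_le hl h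
    have h1 : f ^ r = f ^ (r - 1) * f := by
      rw [Real.rpow_sub hf0, Real.rpow_one]
      field_simp
    have h2 : f ^ (r - 1) ≤ lam ^ (r - 1) := Real.rpow_le_rpow_of_nonpos hl h (by linarith)
    have h3 : 0 ≤ lam ^ r := by positivity
    rw [h1]
    have := mul_le_mul_of_nonneg_right h2 hf0.le
    linarith

/-- The data of the leaf estimate. -/
structure Leaf {ι X : Type*} [MeasurableSpace X] (μ : Measure X) (m : ℕ) (δ B C₁ C₂ : ℝ)
    (J : Finset ι) (w : ι → ℝ) (U : ι → Set X) (h : ι → X → ℝ) (W : X → ℝ) (z : ι → ι → ℝ) :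
    Prop where
  hδ : 0 < δ
  hB : 0 < B
  hC₁ : 0 < C₁
  hC₂ : 1 ≤ C₂
  hw : ∀ i ∈ J, 0 < w i
  hU : ∀ i ∈ J, MeasurableSet (U i)
  hh : ∀ i ∈ J, Measurable (h i)
  hWm : Measurable W
  hW : ∀ x, 0 < W x
  h1 : ∀ i ∈ J, ∀ x ∈ U i, w i / δ * (h i x) ^ m ≤ W x
  h2 : ∀ x, ∑ i ∈ J, w i ≤ B * δ * W x
  h3 : ∀ i ∈ J, ∀ ρ, 0 < ρ → μ (U i ∩ {x | h i x ≤ ρ}) ≤ ENNReal.ofReal (C₁ * δ * ρ)
  h4 : ∀ i ∈ J, ∀ j ∈ J, μ (U i ∩ U j) ≤ ENNReal.ofReal (C₁ * δ * (z i j)⁻¹)
  hz : ∀ i ∈ J, ∀ j ∈ J, 1 ≤ z i j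
  h5 : ∀ i ∈ J, ∀ t, 1 ≤ t → ((J.filter (fun j => z i j ≤ t)).card : ℝ) ≤ C₂ * t

section

variable {ι X : Type*} [MeasurableSpace X] {μ : Measure X} {m : ℕ} {δ B C₁ C₂ : ℝ}
  {J : Finset ι} {w : ι → ℝ} {U : ι → Set X} {h : ι → X → ℝ} {W : X → ℝ} {z : ι → ι → ℝ}

/-- the lighter tubes -/
noncomputable def gl (J : Finset ι) (w : ι → ℝ) (U : ι → Set X) (i : ι) (x : X) : ℝ :=
  ∑ j ∈ J.filter (fun j => w j ≤ w i), (U j).indicator (fun _ => w j) x

theorem Leaf.gl_nonneg (H : Leaf μ m δ B C₁ C₂ J w U h W z) (i : ι) (x : X) :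
    0 ≤ gl J w U i x := by
  apply Finset.sum_nonneg
  intro j hj
  apply Set.indicator_nonneg
  intro _ _
  exact (H.hw j (Finset.mem_filter.1 hj).1).le

theorem Leaf.gl_le (H : Leaf μ m δ B C₁ C₂ J w U h W z) (i : ι) (x : X) :
    gl J w U i x ≤ ∑ j ∈ J, w j := by
  calc gl J w U i x ≤ ∑ j ∈ J.filter (fun j => w j ≤ w i), w j := by
        apply Finset.sum_le_sum
        intro j hj
        by_cases hx : x ∈ U j
        · rw [indicator_of_mem hx]
        · rw [indicator_of_notMem hx]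
          exact (H.hw j (Finset.mem_filter.1 hj).1).le
    _ ≤ _ := by
        apply Finset.sum_le_sum_of_subset_of_nonneg (Finset.filter_subset _ _)
        intro j hj _
        exact (H.hw j hj).le

theorem Leaf.gl_meas (H : Leaf μ m δ B C₁ C₂ J w U h W z) (i : ι) :
    Measurable (gl J w U i) := by
  unfold gl
  apply Finset.measurable_sum
  intro j hj
  exact measurable_const.indicator (H.hU j (Finset.mem_filter.1 hj).1)

/-- Integral of the overlap over a piece of a tube. -/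
theorem Leaf.overlap (H : Leaf μ m δ B C₁ C₂ J w U h W z) {i : ι} (hi : i ∈ J) {ε ρ : ℝ}
    (hε : 0 < ε) (hε1 : ε ≤ 1) (hρ : 0 < ρ) :
    ∫⁻ x in U i ∩ {x | h i x ≤ ρ}, ENNReal.ofReal (gl J w U i x) ∂μ ≤
      ENNReal.ofReal (w i * (C₁ * δ * (Ce ε C₂ * (max 1 ((∑ j ∈ J, w j) / w i * ρ)) ^ ε))) := by
  classical
  have hδ := H.hδ
  have hC₁ := H.hC₁
  have hwi := H.hw i hi
  set T : Set X := U i ∩ {x | h i x ≤ ρ} with hT
  set Ji := J.filter (fun j => w j ≤ w i) with hJi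
  set A : ℝ := (∑ j ∈ J, w j) / w i with hA
  have hA1 : 1 ≤ A := by
    rw [hA, le_div_iff₀ hwi, one_mul]
    exact Finset.single_le_sum (fun j hj => (H.hw j hj).le) hi
  have hJm : ∀ j ∈ Ji, j ∈ J := fun j hj => (Finset.mem_filter.1 hj).1
  have e1 : ∀ x, ENNReal.ofReal (gl J w U i x) =
      ∑ j ∈ Ji, (U j).indicator (fun _ => ENNReal.ofReal (w j)) x := by
    intro x
    unfold gl
    rw [ENNReal.ofReal_sum_of_nonneg]
    · apply Finset.sum_congr rfl
      intro j hj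
      by_cases hx : x ∈ U j
      · rw [indicator_of_mem hx, indicator_of_mem hx]
      · rw [indicator_of_notMem hx, indicator_of_notMem hx, ENNReal.ofReal_zero]
    · intro j hj
      apply Set.indicator_nonneg
      intro _ _
      exact (H.hw j (hJm j hj)).le
  simp only [e1]
  rw [lintegral_finsetSum _ (fun j hj => measurable_const.indicator (H.hU j (hJm j hj)))]
  have e2 : ∀ j ∈ Ji, ∫⁻ x in T, (U j).indicator (fun _ => ENNReal.ofReal (w j)) x ∂μ ≤
      ENNReal.ofReal (w i * (C₁ * δ) * (w j / w i * min ρ (z i j)⁻¹)) := by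
    intro j hj
    rw [lintegral_indicator_const (H.hU j (hJm j hj)), Measure.restrict_apply (H.hU j (hJm j hj))]
    have hwj := H.hw j (hJm j hj)
    have hz1 := H.hz i hi j (hJm j hj)
    have h1 : μ (U j ∩ T) ≤ ENNReal.ofReal (C₁ * δ * min ρ (z i j)⁻¹) := by
      rw [mul_min_of_nonneg _ _ (by positivity : 0 ≤ C₁ * δ)]
      rw [ENNReal.ofReal_mono.map_min]
      apply le_min
      · refine le_trans (measure_mono ?_) (H.h3 i hi ρ hρ)
        exact inter_subset_right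
      · refine le_trans (measure_mono ?_) (H.h4 i hi j (hJm j hj))
        rintro x ⟨hx1, hx2⟩
        exact ⟨hx2.1, hx1⟩
    calc ENNReal.ofReal (w j) * μ (U j ∩ T)
        ≤ ENNReal.ofReal (w j) * ENNReal.ofReal (C₁ * δ * min ρ (z i j)⁻¹) := by gcongr
      _ = ENNReal.ofReal (w j * (C₁ * δ * min ρ (z i j)⁻¹)) := by
          rw [ENNReal.ofReal_mul hwj.le]
      _ = _ := by
          congr 1
          field_simp
  calc ∑ j ∈ Ji, ∫⁻ x in T, (U j).indicator (fun _ => ENNReal.ofReal (w j)) x ∂μ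
      ≤ ∑ j ∈ Ji, ENNReal.ofReal (w i * (C₁ * δ) * (w j / w i * min ρ (z i j)⁻¹)) :=
        Finset.sum_le_sum e2
    _ = ENNReal.ofReal (∑ j ∈ Ji, w i * (C₁ * δ) * (w j / w i * min ρ (z i j)⁻¹)) := by
        rw [ENNReal.ofReal_sum_of_nonneg]
        intro j hj
        have hwj := H.hw j (hJm j hj)
        have hz1 := H.hz i hi j (hJm j hj)
        positivity
    _ ≤ _ := by
        apply ENNReal.ofReal_le_ofReal
        rw [← Finset.mul_sum]
        have h2 := overlap_sum Ji (fun j => z i j) (fun j => w j / w i) (A := A) (C₂ := C₂)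
          (ε := ε) (ρ := ρ) hε hε1 H.hC₂ hA1 hρ (fun j hj => H.hz i hi j (hJm j hj))
          (fun j hj => by
            have hwj := H.hw j (hJm j hj)
            positivity)
          (fun j hj => by
            rw [div_le_iff₀ hwi, one_mul]
            exact (Finset.mem_filter.1 hj).2)
          (by
            rw [← Finset.sum_div, hA]
            apply div_le_div_of_nonneg_right _ hwi.le
            apply Finset.sum_le_sum_of_subset_of_nonneg (Finset.filter_subset _ _)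
            intro j hj _
            exact (H.hw j hj).le)
          (fun t ht => by
            refine le_trans ?_ (H.h5 i hi t ht)
            exact_mod_cast Finset.card_le_card (by
              intro x hx
              rw [Finset.mem_filter] at hx ⊢
              exact ⟨hJm x hx.1, hx.2⟩))
        calc w i * (C₁ * δ) * ∑ j ∈ Ji, w j / w i * min ρ (z i j)⁻¹
            ≤ w i * (C₁ * δ) * (Ce ε C₂ * (max 1 (A * ρ)) ^ ε) := by gcongr
          _ = _ := by ring

/-- The contribution of one shell. -/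
theorem Leaf.shell (H : Leaf μ m δ B C₁ C₂ J w U h W z) {i : ι} (hi : i ∈ J) {r ε ρ : ℝ}
    (hr : 0 < r) (hr1 : r ≤ 1) (hε : 0 < ε) (hε1 : ε ≤ 1) (hρ : 0 < ρ)
    (hρB : 1 ≤ ρ ^ (m + 1) * B) :
    ∫⁻ x in U i ∩ {x | ρ / 2 < h i x ∧ h i x ≤ ρ},
        ENNReal.ofReal ((gl J w U i x / W x) ^ r) ∂μ ≤
      ENNReal.ofReal ((δ * (ρ ^ (m + 1))⁻¹ * (ρ ^ (m + 1) * B) ^ ε) ^ r * (δ * ρ) *
        (C₁ * (1 + 2 ^ m * Ce ε C₂))) := by
  have hδ := H.hδ
  have hC₁ := H.hC₁
  have hB := H.hB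
  have hwi := H.hw i hi
  have hCe := Ce_pos hε H.hC₂
  set lam : ℝ := δ * (ρ ^ (m + 1))⁻¹ * (ρ ^ (m + 1) * B) ^ ε with hlam
  have hlam0 : 0 < lam := by positivity
  set T : Set X := U i ∩ {x | h i x ≤ ρ} with hT
  set T' : Set X := U i ∩ {x | ρ / 2 < h i x ∧ h i x ≤ ρ} with hT'
  have hTm : MeasurableSet T := (H.hU i hi).inter (measurableSet_le (H.hh i hi) measurable_const)
  have hTm' : MeasurableSet T' := (H.hU i hi).inter
    ((measurableSet_lt measurable_const (H.hh i hi)).inter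
      (measurableSet_le (H.hh i hi) measurable_const))
  have hTT : T' ⊆ T := fun x hx => ⟨hx.1, hx.2.2⟩
  set A : ℝ := (∑ j ∈ J, w j) / w i with hA
  have hA1 : 1 ≤ A := by
    rw [hA, le_div_iff₀ hwi, one_mul]
    exact Finset.single_le_sum (fun j hj => (H.hw j hj).le) hi
  have hA0 : 0 < A := by linarith
  set κ : ℝ := 2 ^ m * min (ρ ^ m)⁻¹ (B / A) with hκ
  have hκ0 : 0 < κ := by
    have : 0 < min (ρ ^ m)⁻¹ (B / A) := lt_min (by positivity) (by positivity)
    positivity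
  -- the pointwise bound
  have hpt : ∀ x ∈ T', gl J w U i x / W x ≤ δ * κ / w i * gl J w U i x := by
    intro x hx
    have hg := H.gl_nonneg i x
    have hWx := H.hW x
    rw [div_le_iff₀ hWx]
    have key : 1 ≤ δ * κ / w i * W x := by
      rw [hκ]
      have k1 : 1 ≤ δ * (2 ^ m * (ρ ^ m)⁻¹) / w i * W x := by
        have k2 := H.h1 i hi x hx.1
        have k3 : (ρ / 2) ^ m ≤ (h i x) ^ m := pow_le_pow_left₀ (by positivity) hx.2.1.le m
        calc (1 : ℝ) = δ * (2 ^ m * (ρ ^ m)⁻¹) / w i * (w i / δ * (ρ / 2) ^ m) := by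
              rw [div_pow]
              field_simp
          _ ≤ δ * (2 ^ m * (ρ ^ m)⁻¹) / w i * (w i / δ * (h i x) ^ m) := by gcongr
          _ ≤ _ := by gcongr
      have k4 : 1 ≤ δ * (2 ^ m * (B / A)) / w i * W x := by
        have k5 := H.h2 x
        have k6 : (∑ j ∈ J, w j) = A * w i := by
          rw [hA]
          field_simp
        rw [k6] at k5
        have k7 : (1 : ℝ) ≤ 2 ^ m := one_le_pow₀ (by norm_num)
        have k8 : 1 ≤ δ * B / (A * w i) * W x := by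
          rw [div_mul_eq_mul_div, le_div_iff₀ (by positivity)]
          linarith
        calc (1 : ℝ) ≤ δ * B / (A * w i) * W x := k8
          _ = 1 * (δ * B / (A * w i) * W x) := (one_mul _).symm
          _ ≤ 2 ^ m * (δ * B / (A * w i) * W x) := by gcongr
          _ = _ := by field_simp
      rcases le_total (ρ ^ m)⁻¹ (B / A) with hc | hc
      · rw [min_eq_left hc]; exact k1
      · rw [min_eq_right hc]; exact k4
    calc gl J w U i x = gl J w U i x * 1 := (mul_one _).symm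
      _ ≤ gl J w U i x * (δ * κ / w i * W x) := by gcongr
      _ = _ := by ring
  set c : ℝ := lam ^ (r - 1) * (δ * κ / w i) with hc
  have hc0 : 0 ≤ c := by positivity
  have hpt2 : ∀ x ∈ T', ENNReal.ofReal ((gl J w U i x / W x) ^ r) ≤
      ENNReal.ofReal (lam ^ r) + ENNReal.ofReal c * ENNReal.ofReal (gl J w U i x) := by
    intro x hx
    have hg := H.gl_nonneg i x
    have hWx := H.hW x
    rw [← ENNReal.ofReal_mul hc0, ← ENNReal.ofReal_add (by positivity) (by positivity)]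
    apply ENNReal.ofReal_le_ofReal
    refine (pow_split (by positivity) hlam0 hr hr1).trans ?_
    have := hpt x hx
    calc lam ^ r + lam ^ (r - 1) * (gl J w U i x / W x)
        ≤ lam ^ r + lam ^ (r - 1) * (δ * κ / w i * gl J w U i x) := by gcongr
      _ = _ := by rw [hc]; ring
  have hgm := (H.gl_meas i).ennreal_ofReal
  have hov := H.overlap hi hε hε1 hρ
  have hvol := H.h3 i hi ρ hρ
  rw [← hT] at hov hvol
  calc ∫⁻ x in T', ENNReal.ofReal ((gl J w U i x / W x) ^ r) ∂μ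
      ≤ ∫⁻ x in T', (ENNReal.ofReal (lam ^ r) + ENNReal.ofReal c *
          ENNReal.ofReal (gl J w U i x)) ∂μ := setLIntegral_mono' hTm' hpt2
    _ ≤ ∫⁻ x in T, (ENNReal.ofReal (lam ^ r) + ENNReal.ofReal c *
          ENNReal.ofReal (gl J w U i x)) ∂μ := lintegral_mono_set hTT
    _ = ENNReal.ofReal (lam ^ r) * μ T + ENNReal.ofReal c *
          ∫⁻ x in T, ENNReal.ofReal (gl J w U i x) ∂μ := by
        rw [lintegral_add_left measurable_const, lintegral_const_mul _ hgm, setLIntegral_const]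
    _ ≤ ENNReal.ofReal (lam ^ r) * ENNReal.ofReal (C₁ * δ * ρ) + ENNReal.ofReal c *
          ENNReal.ofReal (w i * (C₁ * δ * (Ce ε C₂ * (max 1 (A * ρ)) ^ ε))) := by gcongr
    _ = ENNReal.ofReal (lam ^ r * (C₁ * δ * ρ) +
          c * (w i * (C₁ * δ * (Ce ε C₂ * (max 1 (A * ρ)) ^ ε)))) := by
        rw [ENNReal.ofReal_add (by positivity) (by positivity),
          ENNReal.ofReal_mul (p := lam ^ r) (by positivity), ENNReal.ofReal_mul (p := c) hc0]
    _ ≤ _ := by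
        apply ENNReal.ofReal_le_ofReal
        have hk := kap (m := m) hρ hA0 hB hε.le hε1 hρB
        have e1 : c * (w i * (C₁ * δ * (Ce ε C₂ * (max 1 (A * ρ)) ^ ε))) =
            lam ^ (r - 1) * δ * (C₁ * δ * Ce ε C₂) * 2 ^ m *
              (min (ρ ^ m)⁻¹ (B / A) * (max 1 (A * ρ)) ^ ε) := by
          rw [hc, hκ]
          field_simp
        have e2 : δ * ((ρ ^ m)⁻¹ * (ρ ^ (m + 1) * B) ^ ε) = lam * ρ := by
          rw [hlam, pow_succ]
          field_simp
        have e3 : lam ^ (r - 1) * lam = lam ^ r := by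
          rw [Real.rpow_sub hlam0, Real.rpow_one]
          field_simp
        rw [e1]
        calc lam ^ r * (C₁ * δ * ρ) + lam ^ (r - 1) * δ * (C₁ * δ * Ce ε C₂) * 2 ^ m *
              (min (ρ ^ m)⁻¹ (B / A) * (max 1 (A * ρ)) ^ ε)
            ≤ lam ^ r * (C₁ * δ * ρ) + lam ^ (r - 1) * δ * (C₁ * δ * Ce ε C₂) * 2 ^ m *
              ((ρ ^ m)⁻¹ * (ρ ^ (m + 1) * B) ^ ε) := by gcongr
          _ = lam ^ r * (C₁ * δ * ρ) + lam ^ (r - 1) * (C₁ * δ * Ce ε C₂) * 2 ^ m *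
              (δ * ((ρ ^ m)⁻¹ * (ρ ^ (m + 1) * B) ^ ε)) := by ring
          _ = lam ^ r * (C₁ * δ * ρ) + (lam ^ (r - 1) * lam) * (C₁ * δ * Ce ε C₂) * 2 ^ m * ρ := by
              rw [e2]; ring
          _ = _ := by rw [e3]; ring

/-- the ratio of the shells -/
noncomputable def th0 (m : ℕ) (r ε : ℝ) : ℝ := 2 ^ (1 - ((m : ℝ) + 1) * r + ((m : ℝ) + 1) * ε * r)

/-- the exponent -/
noncomputable def ep (m : ℕ) (r : ℝ) : ℝ := (((m : ℝ) + 1) * r - 1) / (2 * ((m : ℝ) + 1))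

/-- the constant -/
noncomputable def Dc (m : ℕ) (r C₁ C₂ : ℝ) : ℝ :=
  C₁ * (1 + (1 + 2 ^ m * Ce (ep m r) C₂) * (th0 m r (ep m r) / (1 - th0 m r (ep m r))))

theorem ep_facts {m : ℕ} {r : ℝ} (hr : 1 < ((m : ℝ) + 1) * r) (hr1 : r ≤ 1) :
    0 < ep m r ∧ ep m r ≤ 1 ∧ 0 < th0 m r (ep m r) ∧ th0 m r (ep m r) < 1 := by
  have hm : (0 : ℝ) ≤ m := Nat.cast_nonneg _
  have hr0 : 0 < r := by
    by_contra h
    push Not at h
    nlinarith
  refine ⟨?_, ?_, ?_, ?_⟩
  · unfold ep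
    apply div_pos <;> linarith
  · unfold ep
    rw [div_le_iff₀ (by linarith)]
    nlinarith
  · unfold th0
    positivity
  · unfold th0
    apply Real.rpow_lt_one_of_one_lt_of_neg (by norm_num)
    have h1 : ((m : ℝ) + 1) * ep m r = (((m : ℝ) + 1) * r - 1) / 2 := by
      unfold ep
      field_simp
    rw [h1]
    nlinarith

theorem Leaf.tube (H : Leaf μ m δ B C₁ C₂ J w U h W z) {i : ι} (hi : i ∈ J) {r : ℝ}
    (hr : 1 < ((m : ℝ) + 1) * r) (hr1 : r ≤ 1) :
    ∫⁻ x in U i, ENNReal.ofReal ((gl J w U i x / W x) ^ r) ∂μ ≤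
      ENNReal.ofReal (Dc m r C₁ C₂ * (δ ^ (r + 1) * B ^ (r - 1 / ((m : ℝ) + 1)))) := by
  have hδ := H.hδ
  have hC₁ := H.hC₁
  have hB := H.hB
  have hm : (0 : ℝ) ≤ m := Nat.cast_nonneg _
  have hr0 : 0 < r := by
    by_contra h
    push Not at h
    nlinarith
  obtain ⟨hε, hε1, ht0, ht1⟩ := ep_facts hr hr1
  set ε := ep m r with hεd
  set θ := th0 m r ε with hθ
  have hCe := Ce_pos hε H.hC₂
  set K : ℝ := C₁ * (1 + 2 ^ m * Ce ε C₂) with hK
  have hK0 : 0 < K := by positivity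
  set ρ₀ : ℝ := B ^ (-(1 / ((m : ℝ) + 1))) with hρ₀
  have hρ₀0 : 0 < ρ₀ := by positivity
  have hρB : ρ₀ ^ (m + 1) * B = 1 := by
    rw [hρ₀, ← Real.rpow_natCast, ← Real.rpow_mul hB.le]
    have : -(1 / ((m : ℝ) + 1)) * ((m + 1 : ℕ) : ℝ) = -1 := by
      push_cast
      field_simp
    rw [this, Real.rpow_neg_one, inv_mul_cancel₀ hB.ne']
  have hBr : B ^ r * ρ₀ = B ^ (r - 1 / ((m : ℝ) + 1)) := by
    rw [hρ₀, ← Real.rpow_add hB]
    congr 1
  set Q : ℝ := δ ^ (r + 1) * B ^ (r - 1 / ((m : ℝ) + 1)) with hQ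
  have hQ0 : 0 < Q := by positivity
  -- the inner part
  have hin : ∫⁻ x in U i ∩ {x | h i x ≤ ρ₀}, ENNReal.ofReal ((gl J w U i x / W x) ^ r) ∂μ ≤
      ENNReal.ofReal (C₁ * Q) := by
    have hTm : MeasurableSet (U i ∩ {x | h i x ≤ ρ₀}) :=
      (H.hU i hi).inter (measurableSet_le (H.hh i hi) measurable_const)
    calc ∫⁻ x in U i ∩ {x | h i x ≤ ρ₀}, ENNReal.ofReal ((gl J w U i x / W x) ^ r) ∂μ
        ≤ ∫⁻ x in U i ∩ {x | h i x ≤ ρ₀}, ENNReal.ofReal ((B * δ) ^ r) ∂μ := by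
          apply setLIntegral_mono' hTm
          intro x _
          apply ENNReal.ofReal_le_ofReal
          have hWx := H.hW x
          have hg := H.gl_nonneg i x
          apply Real.rpow_le_rpow (by positivity) _ hr0.le
          rw [div_le_iff₀ hWx]
          exact (H.gl_le i x).trans (H.h2 x)
      _ = ENNReal.ofReal ((B * δ) ^ r) * μ (U i ∩ {x | h i x ≤ ρ₀}) := setLIntegral_const _ _
      _ ≤ ENNReal.ofReal ((B * δ) ^ r) * ENNReal.ofReal (C₁ * δ * ρ₀) := by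
          gcongr
          exact H.h3 i hi ρ₀ hρ₀0
      _ = ENNReal.ofReal (C₁ * Q) := by
          rw [← ENNReal.ofReal_mul (by positivity)]
          congr 1
          rw [hQ, ← hBr, Real.mul_rpow hB.le hδ.le, Real.rpow_add hδ, Real.rpow_one]
          ring
  -- the shells
  have hsh : ∀ l : ℕ, ∫⁻ x in U i ∩ {x | 2 ^ l * ρ₀ < h i x ∧ h i x ≤ 2 ^ (l + 1) * ρ₀},
      ENNReal.ofReal ((gl J w U i x / W x) ^ r) ∂μ ≤ ENNReal.ofReal (K * Q * θ * θ ^ l) := by
    intro l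
    have hρl : (0 : ℝ) < 2 ^ (l + 1) * ρ₀ := by positivity
    have e1 : ((2 : ℝ) ^ (l + 1) * ρ₀) ^ (m + 1) * B = (2 ^ (l + 1)) ^ (m + 1) := by
      rw [mul_pow, mul_assoc, hρB, mul_one]
    have h1 := H.shell hi (ρ := 2 ^ (l + 1) * ρ₀) hr0 hr1 hε hε1 hρl (by
      rw [e1]
      exact one_le_pow₀ (one_le_pow₀ (by norm_num)))
    have e2 : (2 : ℝ) ^ (l + 1) * ρ₀ / 2 = 2 ^ l * ρ₀ := by
      rw [pow_succ]; ring
    rw [e2] at h1
    refine h1.trans (ENNReal.ofReal_le_ofReal (le_of_eq ?_))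
    rw [e1]
    have e3 : (((2 : ℝ) ^ (l + 1) * ρ₀) ^ (m + 1))⁻¹ = B * ((2 ^ (l + 1)) ^ (m + 1))⁻¹ := by
      have h2 : ((2 : ℝ) ^ (l + 1) * ρ₀) ^ (m + 1) = (2 ^ (l + 1)) ^ (m + 1) * B⁻¹ := by
        rw [← e1]
        field_simp
      rw [h2, mul_inv, inv_inv, mul_comm]
    rw [e3]
    set X : ℝ := (2 : ℝ) ^ (l + 1) with hX
    have hX0 : 0 < X := by positivity
    have e4 : ((X ^ (m + 1))⁻¹ * (X ^ (m + 1)) ^ ε) ^ r * X = θ ^ (l + 1) := by
      have hXl : X = (2 : ℝ) ^ ((l : ℝ) + 1) := by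
        rw [hX, ← Real.rpow_natCast]
        push_cast
        rfl
      rw [← Real.rpow_natCast X, ← Real.rpow_neg hX0.le, ← Real.rpow_mul hX0.le,
        ← Real.rpow_add hX0, ← Real.rpow_mul hX0.le]
      nth_rewrite 2 [← Real.rpow_one X]
      rw [← Real.rpow_add hX0, hXl, ← Real.rpow_mul (by norm_num), hθ, th0, ← Real.rpow_natCast,
        ← Real.rpow_mul (by norm_num)]
      congr 1
      push_cast
      ring
    calc (δ * (B * (X ^ (m + 1))⁻¹) * (X ^ (m + 1)) ^ ε) ^ r * (δ * (X * ρ₀)) *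
          (C₁ * (1 + 2 ^ m * Ce ε C₂))
        = ((δ * B) * ((X ^ (m + 1))⁻¹ * (X ^ (m + 1)) ^ ε)) ^ r * (δ * (X * ρ₀)) * K := by
          rw [hK]
          congr 3
          ring
      _ = K * (δ ^ r * δ * (B ^ r * ρ₀)) *
            (((X ^ (m + 1))⁻¹ * (X ^ (m + 1)) ^ ε) ^ r * X) := by
          rw [Real.mul_rpow (by positivity) (by positivity), Real.mul_rpow hδ.le hB.le]
          ring
      _ = K * Q * θ * θ ^ l := by
          rw [e4, hBr, hQ, Real.rpow_add hδ, Real.rpow_one, pow_succ]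
          ring
  have hcov : U i ⊆ (U i ∩ {x | h i x ≤ ρ₀}) ∪
      ⋃ l : ℕ, (U i ∩ {x | 2 ^ l * ρ₀ < h i x ∧ h i x ≤ 2 ^ (l + 1) * ρ₀}) := by
    intro x hx
    by_cases h0 : h i x ≤ ρ₀
    · exact Or.inl ⟨hx, h0⟩
    · push Not at h0
      right
      have h1 : 1 < h i x / ρ₀ := by rwa [lt_div_iff₀ hρ₀0, one_mul]
      obtain ⟨l, hl1, hl2⟩ : ∃ l : ℕ, (2 : ℝ) ^ l < h i x / ρ₀ ∧ h i x / ρ₀ ≤ 2 ^ (l + 1) := by
        have hex : ∃ n : ℕ, h i x / ρ₀ ≤ (2 : ℝ) ^ n := by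
          obtain ⟨n, hn⟩ := pow_unbounded_of_one_lt (h i x / ρ₀) (by norm_num : (1 : ℝ) < 2)
          exact ⟨n, hn.le⟩
        classical
        have hf := Nat.find_spec hex
        have hpos : Nat.find hex ≠ 0 := by
          intro h
          rw [h, pow_zero] at hf
          linarith
        obtain ⟨l, hl⟩ := Nat.exists_eq_succ_of_ne_zero hpos
        refine ⟨l, ?_, ?_⟩
        · by_contra hc
          push Not at hc
          exact Nat.find_min hex (by omega) hc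
        · rw [hl] at hf
          exact hf
      rw [mem_iUnion]
      refine ⟨l, hx, ?_, ?_⟩
      · rwa [lt_div_iff₀ hρ₀0] at hl1
      · rwa [div_le_iff₀ hρ₀0] at hl2
  have hsum : ∑' l : ℕ, ENNReal.ofReal (K * Q * θ * θ ^ l) =
      ENNReal.ofReal (K * Q * θ * (1 - θ)⁻¹) := by
    rw [← ENNReal.ofReal_tsum_of_nonneg (fun l => by positivity)
      ((summable_geometric_of_lt_one ht0.le ht1).mul_left _), tsum_mul_left,
      tsum_geometric_of_lt_one ht0.le ht1]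
  calc ∫⁻ x in U i, ENNReal.ofReal ((gl J w U i x / W x) ^ r) ∂μ
      ≤ ∫⁻ x in (U i ∩ {x | h i x ≤ ρ₀}) ∪
          ⋃ l : ℕ, (U i ∩ {x | 2 ^ l * ρ₀ < h i x ∧ h i x ≤ 2 ^ (l + 1) * ρ₀}),
          ENNReal.ofReal ((gl J w U i x / W x) ^ r) ∂μ := lintegral_mono_set hcov
    _ ≤ ∫⁻ x in (U i ∩ {x | h i x ≤ ρ₀}), ENNReal.ofReal ((gl J w U i x / W x) ^ r) ∂μ +
          ∫⁻ x in ⋃ l : ℕ, (U i ∩ {x | 2 ^ l * ρ₀ < h i x ∧ h i x ≤ 2 ^ (l + 1) * ρ₀}),
          ENNReal.ofReal ((gl J w U i x / W x) ^ r) ∂μ := lintegral_union_le _ _ _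
    _ ≤ ENNReal.ofReal (C₁ * Q) + ∑' l : ℕ, ENNReal.ofReal (K * Q * θ * θ ^ l) := by
        gcongr
        refine (lintegral_iUnion_le _ _).trans ?_
        exact ENNReal.tsum_le_tsum hsh
    _ = ENNReal.ofReal (C₁ * Q + K * Q * θ * (1 - θ)⁻¹) := by
        have h1 : 0 < 1 - θ := by linarith
        rw [hsum, ENNReal.ofReal_add (by positivity) (by positivity)]
    _ = _ := by
        congr 1
        rw [hK, Dc, ← hεd, ← hθ]
        ring

/-- **The leaf estimate.** -/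
theorem Leaf.main (H : Leaf μ m δ B C₁ C₂ J w U h W z) {r : ℝ}
    (hr : 1 < ((m : ℝ) + 1) * r) (hr1 : r ≤ 1) :
    ∫⁻ x, ENNReal.ofReal (∑ i ∈ J, (U i).indicator (fun _ => w i) x) ^ (r + 1) *
      ENNReal.ofReal (W x) ^ (-r) ∂μ ≤
      ENNReal.ofReal (2 * Dc m r C₁ C₂ * (δ ^ (r + 1) * B ^ (r - 1 / ((m : ℝ) + 1))) *
        ∑ i ∈ J, w i) := by
  classical
  have hm : (0 : ℝ) ≤ m := Nat.cast_nonneg _
  have hr0 : 0 < r := by
    by_contra h
    push Not at h
    nlinarith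
  have hδ := H.hδ
  have hB := H.hB
  have hpt : ∀ x, ENNReal.ofReal (∑ i ∈ J, (U i).indicator (fun _ => w i) x) ^ (r + 1) *
      ENNReal.ofReal (W x) ^ (-r) ≤ 2 * ∑ i ∈ J, ENNReal.ofReal (w i) *
        (U i).indicator (fun x => ENNReal.ofReal ((gl J w U i x / W x) ^ r)) x := by
    intro x
    have hWx := H.hW x
    set T := J.filter (fun i => x ∈ U i) with hT
    have hTw : ∀ i ∈ T, 0 < w i := fun i hi => H.hw i (Finset.mem_filter.1 hi).1
    have e1 : ∑ i ∈ J, (U i).indicator (fun _ => w i) x = ∑ i ∈ T, w i := by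
      rw [hT, Finset.sum_filter]
      apply Finset.sum_congr rfl
      intro i _
      by_cases hx : x ∈ U i
      · rw [indicator_of_mem hx, if_pos hx]
      · rw [indicator_of_notMem hx, if_neg hx]
    have e2 : ∀ i, ∑ j ∈ T.filter (fun j => w j ≤ w i), w j = gl J w U i x := by
      intro i
      unfold gl
      rw [hT, Finset.filter_filter, Finset.sum_filter, Finset.sum_filter]
      apply Finset.sum_congr rfl
      intro j _
      by_cases hx : x ∈ U j
      · rw [indicator_of_mem hx]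
        simp [hx]
      · rw [indicator_of_notMem hx]
        simp [hx]
    have h1 := rank_sum hr0 hr1 w T hTw
    simp only [e2] at h1
    have h0 : 0 ≤ ∑ i ∈ T, w i := Finset.sum_nonneg fun i hi => (hTw i hi).le
    rw [e1, ENNReal.ofReal_rpow_of_nonneg h0 (by linarith), ENNReal.ofReal_rpow_of_pos hWx,
      ← ENNReal.ofReal_mul (by positivity)]
    have h2 : (∑ i ∈ T, w i) ^ (r + 1) * W x ^ (-r) ≤
        2 * ∑ i ∈ T, w i * (gl J w U i x / W x) ^ r := by
      have h3 : ∀ i, (gl J w U i x / W x) ^ r = (gl J w U i x) ^ r * W x ^ (-r) := by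
        intro i
        rw [Real.div_rpow (H.gl_nonneg i x) hWx.le, Real.rpow_neg hWx.le, div_eq_mul_inv]
      calc (∑ i ∈ T, w i) ^ (r + 1) * W x ^ (-r)
          ≤ (2 * ∑ i ∈ T, w i * (gl J w U i x) ^ r) * W x ^ (-r) := by gcongr
        _ = _ := by
            rw [mul_assoc, Finset.sum_mul]
            congr 1
            apply Finset.sum_congr rfl
            intro i _
            rw [h3]
            ring
    refine (ENNReal.ofReal_le_ofReal h2).trans (le_of_eq ?_)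
    rw [ENNReal.ofReal_mul (by norm_num), ENNReal.ofReal_sum_of_nonneg (fun i hi => by
      have := hTw i hi
      have := H.gl_nonneg i x
      positivity), hT, Finset.sum_filter]
    congr 1
    · norm_num
    · apply Finset.sum_congr rfl
      intro i hi
      by_cases hx : x ∈ U i
      · rw [if_pos hx, indicator_of_mem hx, ENNReal.ofReal_mul (H.hw i hi).le]
      · rw [if_neg hx, indicator_of_notMem hx, mul_zero]
  have hmeas : ∀ i ∈ J, Measurable (fun x => ENNReal.ofReal (w i) *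
        (U i).indicator (fun x => ENNReal.ofReal ((gl J w U i x / W x) ^ r)) x) := by
    intro i hi
    apply Measurable.const_mul
    exact (((H.gl_meas i).div H.hWm).pow_const r).ennreal_ofReal.indicator (H.hU i hi)
  calc ∫⁻ x, ENNReal.ofReal (∑ i ∈ J, (U i).indicator (fun _ => w i) x) ^ (r + 1) *
      ENNReal.ofReal (W x) ^ (-r) ∂μ
      ≤ ∫⁻ x, 2 * ∑ i ∈ J, ENNReal.ofReal (w i) *
        (U i).indicator (fun x => ENNReal.ofReal ((gl J w U i x / W x) ^ r)) x ∂μ :=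
        lintegral_mono hpt
    _ = 2 * ∑ i ∈ J, ENNReal.ofReal (w i) * ∫⁻ x in U i,
          ENNReal.ofReal ((gl J w U i x / W x) ^ r) ∂μ := by
        rw [lintegral_const_mul _ (Finset.measurable_sum _ hmeas), lintegral_finsetSum _ hmeas]
        congr 1
        apply Finset.sum_congr rfl
        intro i hi
        have hm0 : Measurable (fun x => ENNReal.ofReal ((gl J w U i x / W x) ^ r)) :=
          (((H.gl_meas i).div H.hWm).pow_const r).ennreal_ofReal
        rw [lintegral_const_mul _ (hm0.indicator (H.hU i hi)), lintegral_indicator (H.hU i hi)]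
    _ ≤ 2 * ∑ i ∈ J, ENNReal.ofReal (w i) *
          ENNReal.ofReal (Dc m r C₁ C₂ * (δ ^ (r + 1) * B ^ (r - 1 / ((m : ℝ) + 1)))) := by
        gcongr with i hi
        exact H.tube hi hr hr1
    _ = _ := by
        rw [← Finset.sum_mul, ← ENNReal.ofReal_sum_of_nonneg (fun i hi => (H.hw i hi).le)]
        have h2 : (2 : ℝ≥0∞) = ENNReal.ofReal 2 := by norm_num
        have h3 : 0 ≤ ∑ i ∈ J, w i := Finset.sum_nonneg fun i hi => (H.hw i hi).le
        rw [h2, ← ENNReal.ofReal_mul h3, ← ENNReal.ofReal_mul (by norm_num)]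
        congr 1
        ring

end

end Pool.Agent.X160.Pf
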