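import Pool.Agent.X160.Pf.Main
set_option autoImplicit false

/-!
# From Lipschitz families to the data of the main estimate
-/

open MeasureTheory Set Metric Filter
open scoped ENNReal NNReal

namespace Pool.Agent.X160.Pf

variable {m : ℕ}

/-- For almost every point `p` of `T`, almost every point over `p` lies on at most `M` planes. -/
def OverlapLE (M : ℕ) (T : Set (ℝ × ℝ)) (S : Set (Vec m)) (α β γ : Vec m → Vec m) : Prop :=
  ∀ᵐ p : ℝ × ℝ, p ∈ T → ∀ᵐ z : Vec m, {s | s ∈ S ∧ pt α β γ p s = z}.encard ≤ M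

/-- The tube with slope `v` and centre `a` is carried by the family for a proportion `θ` of the
slopes near `v`. -/
def Carried (θ δ K : ℝ) (S : Set (Vec m)) (α β γ : Vec m → Vec m) (v : Base m) (a : Space m) :
    Prop :=
  ENNReal.ofReal θ * volume (ball v (δ / 2)) ≤ volume {w : Base m | ‖w - v‖ < δ / 2 ∧
    ∃ s ∈ S, w.fst = β s + w.snd • γ s ∧
      ‖pt α β γ (a.snd, a.fst.snd) s - a.fst.fst‖ ≤ K * δ}

/-- the slope map -/
noncomputable def Gm (β γ : Vec m → Vec m) (q : Vec m × ℝ) : Vec m × ℝ :=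
  (β q.1 + q.2 • γ q.1, q.2)

/-- Lipschitz images of null sets are null. -/
theorem null_image {E : Type*} [NormedAddCommGroup E] [NormedSpace ℝ E] [FiniteDimensional ℝ E]
    [MeasurableSpace E] [BorelSpace E] (μ : Measure E) [μ.IsAddHaarMeasure] {s : Set E} {R : E → E}
    {C : ℝ≥0} (hR : LipschitzOnWith C R s) (hs : μ s = 0) : μ (R '' s) = 0 := by
  have h1 : μ = Measure.addHaarScalarFactor μ μH[Module.finrank ℝ E] • μH[Module.finrank ℝ E] :=
    Measure.isAddLeftInvariant_eq_smul μ μH[Module.finrank ℝ E]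
  have h2 : (μH[Module.finrank ℝ E] : Measure E) =
      Measure.addHaarScalarFactor μH[Module.finrank ℝ E] μ • μ :=
    Measure.isAddLeftInvariant_eq_smul μH[Module.finrank ℝ E] μ
  have h3 : (μH[Module.finrank ℝ E] : Measure E) s = 0 := by
    rw [h2, Measure.smul_apply, hs, smul_zero]
  have h4 := hR.hausdorffMeasure_image_le (d := Module.finrank ℝ E) (by positivity)
  rw [h3, mul_zero, nonpos_iff_eq_zero] at h4
  rw [h1, Measure.smul_apply, h4, smul_zero]

/-- Null sets of planes carry null sets of slopes. -/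
theorem null_slopes {Λ : ℝ≥0} {β γ : Vec m → Vec m} (hβ : LipschitzWith Λ β)
    (hγ : LipschitzWith Λ γ) {N : Set (Vec m)} (hN : volume N = 0) :
    volume (Gm β γ '' (N ×ˢ univ)) = 0 := by
  have hcov : Gm β γ '' (N ×ˢ univ) ⊆ ⋃ k : ℕ, Gm β γ ''
      ((N ∩ closedBall 0 k) ×ˢ Icc (-(k : ℝ)) k) := by
    rintro _ ⟨⟨s, η⟩, ⟨hs, _⟩, rfl⟩
    obtain ⟨k, hk⟩ := exists_nat_ge (max ‖s‖ |η|)
    rw [mem_iUnion]
    refine ⟨k, (s, η), ⟨⟨hs, ?_⟩, ?_⟩, rfl⟩
    · rw [mem_closedBall, dist_zero_right]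
      exact (le_max_left _ _).trans hk
    · have := (le_max_right ‖s‖ |η|).trans hk
      rw [abs_le] at this
      exact this
  refine measure_mono_null hcov (measure_iUnion_null fun k => ?_)
  set C : ℝ≥0 := Λ + (k * Λ + (‖γ 0‖₊ + Λ * k)) + 1 with hC
  have hL : LipschitzOnWith C (Gm β γ) ((N ∩ closedBall 0 k) ×ˢ Icc (-(k : ℝ)) k) := by
    apply LipschitzOnWith.of_dist_le_mul
    rintro ⟨s, η⟩ ⟨⟨_, hs⟩, hη⟩ ⟨s', η'⟩ ⟨⟨_, hs'⟩, hη'⟩
    rw [mem_closedBall, dist_zero_right] at hs hs'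
    have hk0 : (0 : ℝ) ≤ k := Nat.cast_nonneg _
    have hη1 : |η| ≤ k := abs_le.2 hη
    set D := dist ((s, η) : Vec m × ℝ) (s', η') with hD
    have hD0 : 0 ≤ D := dist_nonneg
    have h1 : ‖s - s'‖ ≤ D := by
      rw [hD, Prod.dist_eq, ← dist_eq_norm]
      exact le_max_left _ _
    have h2 : |η - η'| ≤ D := by
      rw [hD, Prod.dist_eq, ← Real.dist_eq]
      exact le_max_right _ _
    have hb : ‖β s - β s'‖ ≤ Λ * D := by
      rw [← dist_eq_norm]
      refine (hβ.dist_le_mul s s').trans ?_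
      rw [dist_eq_norm]
      gcongr
    have hc : ‖γ s - γ s'‖ ≤ Λ * D := by
      rw [← dist_eq_norm]
      refine (hγ.dist_le_mul s s').trans ?_
      rw [dist_eq_norm]
      gcongr
    have hg : ‖γ s'‖ ≤ ‖γ 0‖ + Λ * k := by
      have h3 := hγ.dist_le_mul s' 0
      rw [dist_eq_norm, dist_zero_right] at h3
      calc ‖γ s'‖ = ‖γ 0 + (γ s' - γ 0)‖ := by congr 1; abel
        _ ≤ ‖γ 0‖ + ‖γ s' - γ 0‖ := norm_add_le _ _
        _ ≤ ‖γ 0‖ + Λ * k := by
            have : (Λ : ℝ) * ‖s'‖ ≤ Λ * k := by gcongr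
            linarith
    have hCr : (C : ℝ) = Λ + (k * Λ + (‖γ 0‖ + Λ * k)) + 1 := by
      rw [hC]
      push_cast
      rfl
    rw [Prod.dist_eq]
    apply max_le
    · show dist (β s + η • γ s) (β s' + η' • γ s') ≤ C * D
      rw [dist_eq_norm]
      have e : β s + η • γ s - (β s' + η' • γ s') =
          (β s - β s') + (η • (γ s - γ s') + (η - η') • γ s') := by module
      rw [e]
      refine (norm_add_le _ _).trans ?_
      have h3 : ‖η • (γ s - γ s') + (η - η') • γ s'‖ ≤ k * (Λ * D) + D * (‖γ 0‖ + Λ * k) := by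
        refine (norm_add_le _ _).trans ?_
        rw [norm_smul, norm_smul, Real.norm_eq_abs, Real.norm_eq_abs]
        gcongr
      rw [hCr]
      linarith
    · show dist η η' ≤ C * D
      rw [Real.dist_eq]
      have hΛ : (0 : ℝ) ≤ Λ := Λ.2
      have h4 : 1 * D ≤ C * D := by
        apply mul_le_mul_of_nonneg_right _ hD0
        rw [hCr]
        have : 0 ≤ k * (Λ : ℝ) := by positivity
        have h5 : 0 ≤ ‖γ 0‖ := norm_nonneg _
        have h6 : 0 ≤ (Λ : ℝ) * k := by positivity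
        linarith
      linarith
  haveI : (volume : Measure (Vec m × ℝ)).IsAddHaarMeasure := by
    rw [Measure.volume_eq_prod]
    infer_instance
  apply null_image volume hL
  refine measure_mono_null (Set.prod_mono inter_subset_left (subset_univ _)) ?_
  rw [Measure.volume_eq_prod, Measure.prod_prod, hN, zero_mul]

theorem Gm_deriv {β γ : Vec m → Vec m} {s : Vec m} {b c : Vec m →L[ℝ] Vec m}
    (hb : HasFDerivAt β b s) (hc : HasFDerivAt γ c s) (η : ℝ) :
    ∃ L : (Vec m × ℝ) →L[ℝ] (Vec m × ℝ), HasFDerivAt (Gm β γ) L (s, η) ∧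
      L.det = (b + η • c).det := by
  have hβ : HasFDerivAt (fun q : Vec m × ℝ => β q.1) (b.comp (ContinuousLinearMap.fst ℝ _ _))
      (s, η) := HasFDerivAt.comp (s, η) (f := Prod.fst) hb hasFDerivAt_fst
  have hγ : HasFDerivAt (fun q : Vec m × ℝ => γ q.1) (c.comp (ContinuousLinearMap.fst ℝ _ _))
      (s, η) := HasFDerivAt.comp (s, η) (f := Prod.fst) hc hasFDerivAt_fst
  have h2 : HasFDerivAt (fun q : Vec m × ℝ => q.2) (ContinuousLinearMap.snd ℝ (Vec m) ℝ) (s, η) :=
    hasFDerivAt_snd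
  refine ⟨_, (hβ.add (h2.smul hγ)).prodMk h2, ?_⟩
  apply det_shear _ (γ s)
  intro x h
  simp
  abel

/-- **The data of the main estimate.** -/
theorem exists_data {Λ : ℝ≥0} {M : ℕ} {A K θ δ : ℝ} (hK : 0 ≤ K) (hθ : 0 < θ) (hδ : 0 < δ)
    {T : Set (ℝ × ℝ)} {S : Set (Vec m)} (hS : MeasurableSet S) {α β γ : Vec m → Vec m}
    (hα : LipschitzOnWith Λ α S) (hβ : LipschitzOnWith Λ β S) (hγ : LipschitzOnWith Λ γ S)
    (hA : ∀ s ∈ S, ‖γ s‖ ≤ A) (hO : OverlapLE M T S α β γ) {ι : Type*} (v : ι → Base m)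
    (x : ι → Space m) (hsep : ∀ i j, i ≠ j → δ ≤ ‖v i - v j‖)
    (hc : ∀ i, Carried θ δ K S α β γ (v i) (x i)) {L : ℝ} (hL : 0 < L)
    (hLe : volume (ball (0 : Base m) (δ / 2)) = ENNReal.ofReal (2 * L)) :
    ∃ (S₀ : Set (Vec m)) (α' β' γ' : Vec m → Vec m) (a b c : Vec m → Vec m →L[ℝ] Vec m)
      (φ : ι → Vec m × ℝ → ℝ≥0∞), PF M A T S₀ α' β' γ' a b c ∧
      TD δ K (θ * L) S₀ α' β' γ' b c v (fun i => (x i).snd) (fun i => (x i).fst.snd)
        (fun i => (x i).fst.fst) φ := by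
  classical
  obtain ⟨α', hα', hαe⟩ := hα.extend_finite_dimension
  obtain ⟨β', hβ', hβe⟩ := hβ.extend_finite_dimension
  obtain ⟨γ', hγ', hγe⟩ := hγ.extend_finite_dimension
  set S₀ : Set (Vec m) := S ∩ ({s | DifferentiableAt ℝ α' s} ∩ ({s | DifferentiableAt ℝ β' s} ∩
    {s | DifferentiableAt ℝ γ' s})) with hS₀
  have hS₀m : MeasurableSet S₀ := hS.inter ((measurableSet_of_differentiableAt ℝ α').inter
    ((measurableSet_of_differentiableAt ℝ β').inter (measurableSet_of_differentiableAt ℝ γ')))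
  have hnull : volume (S \ S₀) = 0 := by
    have h1 := hα'.ae_differentiableAt (μ := volume)
    have h2 := hβ'.ae_differentiableAt (μ := volume)
    have h3 := hγ'.ae_differentiableAt (μ := volume)
    have h4 := h1.and (h2.and h3)
    rw [ae_iff] at h4
    refine measure_mono_null ?_ h4
    rintro s ⟨hs1, hs2⟩ hs3
    exact hs2 ⟨hs1, hs3⟩
  have hpt : ∀ p, ∀ s ∈ S, pt α' β' γ' p s = pt α β γ p s := by
    intro p s hs
    unfold pt
    rw [hαe hs, hβe hs, hγe hs]
  have mb : Measurable (fderiv ℝ β') := measurable_fderiv ℝ β'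
  have mc : Measurable (fderiv ℝ γ') := measurable_fderiv ℝ γ'
  have mα : Measurable α' := hα'.continuous.measurable
  have mβ : Measurable β' := hβ'.continuous.measurable
  have mγ : Measurable γ' := hγ'.continuous.measurable
  have hPF : PF M A T S₀ α' β' γ' (fderiv ℝ α') (fderiv ℝ β') (fderiv ℝ γ') := by
    refine ⟨hS₀m, fun s hs => hs.2.1.hasFDerivAt.hasFDerivWithinAt,
      fun s hs => hs.2.2.1.hasFDerivAt.hasFDerivWithinAt,
      fun s hs => hs.2.2.2.hasFDerivAt.hasFDerivWithinAt, measurable_fderiv ℝ α', mb, mc, mα, mβ,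
      mγ, ?_, ?_⟩
    · filter_upwards [hO] with p hp hpT
      filter_upwards [hp hpT] with z hz
      refine le_trans (Set.encard_le_encard ?_) hz
      rintro s ⟨h1, h2⟩
      refine ⟨h1.1, ?_⟩
      rw [← hpt p s h1.1]
      exact h2
    · intro s hs
      rw [← hγe hs.1]
      exact hA s hs.1
  -- the parameter sets
  set E : ι → Set (Vec m × ℝ) := fun i => {q | q.1 ∈ S₀ ∧
    (‖WithLp.toLp 2 (Gm β' γ' q) - v i‖ < δ / 2 ∧
      ‖pt α' β' γ' ((x i).snd, (x i).fst.snd) q.1 - (x i).fst.fst‖ ≤ K * δ)} with hE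
  have mG : Measurable (Gm β' γ') := by
    unfold Gm
    exact ((mβ.comp measurable_fst).add (measurable_snd.smul (mγ.comp measurable_fst))).prodMk
      measurable_snd
  have hEm : ∀ i, MeasurableSet (E i) := by
    intro i
    have h1 : MeasurableSet {q : Vec m × ℝ | q.1 ∈ S₀} := measurable_fst hS₀m
    have h2 : MeasurableSet {q : Vec m × ℝ | ‖WithLp.toLp 2 (Gm β' γ' q) - v i‖ < δ / 2} := by
      apply measurableSet_lt _ measurable_const
      exact (((WithLp.volume_preserving_toLp (Vec m) ℝ).measurable.comp mG).sub_const _).norm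
    have h3 : MeasurableSet {q : Vec m × ℝ |
        ‖pt α' β' γ' ((x i).snd, (x i).fst.snd) q.1 - (x i).fst.fst‖ ≤ K * δ} := by
      apply measurableSet_le _ measurable_const
      have h4 : Measurable (fun s => pt α' β' γ' ((x i).snd, (x i).fst.snd) s) := hPF.mpt_left _
      exact ((h4.comp measurable_fst).sub_const _).norm
    exact h1.inter (h2.inter h3)
  set J : Vec m × ℝ → ℝ := fun q => |(fderiv ℝ β' q.1 + q.2 • fderiv ℝ γ' q.1).det| with hJ
  have mJ : Measurable J := by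
    apply Measurable.abs
    apply ContinuousLinearMap.continuous_det.measurable.comp
    exact (mb.comp measurable_fst).add (measurable_snd.smul (mc.comp measurable_fst))
  have hJ0 : ∀ q, 0 ≤ J q := fun q => abs_nonneg _
  -- the measure of the slopes
  have hvol : ∀ i, ENNReal.ofReal (θ * (2 * L)) ≤ ∫⁻ q in E i, ENNReal.ofReal (J q) := by
    intro i
    have h1 := hc i
    unfold Carried at h1
    rw [Measure.addHaar_ball_center volume (v i) (δ / 2), hLe, ← ENNReal.ofReal_mul hθ.le] at h1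
    refine h1.trans ?_
    set D : Set (Base m) := {w : Base m | ‖w - v i‖ < δ / 2 ∧
      ∃ s ∈ S, w.fst = β s + w.snd • γ s ∧
      ‖pt α β γ ((x i).snd, (x i).fst.snd) s - (x i).fst.fst‖ ≤ K * δ} with hD
    have hsub : (WithLp.toLp 2 : Vec m × ℝ → Base m) ⁻¹' D ⊆
        Gm β' γ' '' (E i) ∪ Gm β' γ' '' ((S \ S₀) ×ˢ univ) := by
      rintro ⟨w1, w2⟩ ⟨hw1, s, hs, hw2, hw3⟩
      have hw2' : w1 = β' s + w2 • γ' s := by
        have : w1 = β s + w2 • γ s := hw2
        rw [this, hβe hs, hγe hs]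
      have hG : Gm β' γ' (s, w2) = (w1, w2) := by
        unfold Gm
        rw [hw2']
      by_cases hs0 : s ∈ S₀
      · left
        refine ⟨(s, w2), ⟨hs0, ?_, ?_⟩, hG⟩
        · rw [hG]; exact hw1
        · show ‖pt α' β' γ' ((x i).snd, (x i).fst.snd) s - (x i).fst.fst‖ ≤ K * δ
          rw [hpt _ s hs]
          exact hw3
      · right
        exact ⟨(s, w2), ⟨⟨hs, hs0⟩, mem_univ _⟩, hG⟩
    have hDD : volume D ≤ volume ((WithLp.toLp 2 : Vec m × ℝ → Base m) ⁻¹' D) := by
      have hmp := WithLp.volume_preserving_toLp (Vec m) ℝ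
      exact (hmp.measure_preimage_emb
        (MeasurableEquiv.toLp 2 (Vec m × ℝ)).measurableEmbedding D).ge
    set ΛΛ : ℝ≥0 := lipschitzExtensionConstant (Vec m) * Λ with hΛΛ
    have hz := null_slopes hβ' hγ' hnull
    calc volume D ≤ volume ((WithLp.toLp 2 : Vec m × ℝ → Base m) ⁻¹' D) := hDD
      _ ≤ volume (Gm β' γ' '' (E i) ∪ Gm β' γ' '' ((S \ S₀) ×ˢ univ)) := measure_mono hsub
      _ ≤ volume (Gm β' γ' '' (E i)) + volume (Gm β' γ' '' ((S \ S₀) ×ˢ univ)) :=
          measure_union_le _ _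
      _ = volume (Gm β' γ' '' (E i)) := by rw [hz, add_zero]
      _ ≤ ∫⁻ q in E i, ENNReal.ofReal (J q) := by
          have hder : ∀ q : Vec m × ℝ, ∃ L' : (Vec m × ℝ) →L[ℝ] (Vec m × ℝ), q.1 ∈ S₀ →
              HasFDerivAt (Gm β' γ') L' q ∧
              L'.det = (fderiv ℝ β' q.1 + q.2 • fderiv ℝ γ' q.1).det := by
            intro q
            by_cases hq : q.1 ∈ S₀
            · obtain ⟨L', h1, h2⟩ := Gm_deriv hq.2.2.1.hasFDerivAt hq.2.2.2.hasFDerivAt q.2
              exact ⟨L', fun _ => ⟨h1, h2⟩⟩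
            · exact ⟨0, fun h => absurd h hq⟩
          choose L' hL' using hder
          haveI : (volume : Measure (Vec m × ℝ)).IsAddHaarMeasure := by
            rw [Measure.volume_eq_prod]
            infer_instance
          refine (addHaar_image_le_lintegral_abs_det_fderiv volume (hEm i)
            (fun q hq => (hL' q hq.1).1.hasFDerivWithinAt)).trans (le_of_eq ?_)
          apply setLIntegral_congr_fun (hEm i)
          intro q hq
          show ENNReal.ofReal |(L' q).det| = ENNReal.ofReal (J q)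
          rw [(hL' q hq.1).2]
  -- the weights
  have hφ : ∀ i, ∃ φ : Vec m × ℝ → ℝ≥0∞, Measurable φ ∧
      (∀ q, φ q ≤ (E i).indicator (fun q => ENNReal.ofReal (J q)) q) ∧
      ∫⁻ q, φ q = ENNReal.ofReal (θ * L) := by
    intro i
    set f : Vec m × ℝ → ℝ≥0 := (E i).indicator (fun q => (J q).toNNReal) with hf
    have hfe : ∀ q, (f q : ℝ≥0∞) = (E i).indicator (fun q => ENNReal.ofReal (J q)) q := by
      intro q
      by_cases hq : q ∈ E i
      · rw [hf, indicator_of_mem hq, indicator_of_mem hq]; rfl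
      · rw [hf, indicator_of_notMem hq, indicator_of_notMem hq]; rfl
    have hlt : ENNReal.ofReal (θ * L) < ∫⁻ q, (f q : ℝ≥0∞) := by
      simp only [hfe]
      rw [lintegral_indicator (hEm i)]
      refine lt_of_lt_of_le ?_ (hvol i)
      rw [ENNReal.ofReal_lt_ofReal_iff (by positivity)]
      have : 0 < θ * L := by positivity
      linarith
    obtain ⟨g, hg1, hg2, hg3⟩ := exists_lt_lintegral_simpleFunc_of_lt_lintegral hlt
    set I : ℝ≥0∞ := ∫⁻ q, (g q : ℝ≥0∞) with hI
    have hI0 : I ≠ 0 := (lt_of_le_of_lt zero_le hg3).ne'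
    have hgm : Measurable (fun q => (g q : ℝ≥0∞)) := g.measurable.coe_nnreal_ennreal
    refine ⟨fun q => ENNReal.ofReal (θ * L) / I * (g q : ℝ≥0∞), hgm.const_mul _, ?_, ?_⟩
    · intro q
      rw [← hfe]
      have h1 : ENNReal.ofReal (θ * L) / I ≤ 1 := by
        rw [ENNReal.div_le_iff hI0 hg2.ne, one_mul]
        exact hg3.le
      calc ENNReal.ofReal (θ * L) / I * (g q : ℝ≥0∞) ≤ 1 * (f q : ℝ≥0∞) := by
            gcongr
            exact hg1 q
        _ = _ := one_mul _
    · rw [lintegral_const_mul _ hgm, ← hI]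
      exact ENNReal.div_mul_cancel hI0 hg2.ne
  choose φ hφ1 hφ2 hφ3 using hφ
  refine ⟨S₀, α', β', γ', fderiv ℝ α', fderiv ℝ β', fderiv ℝ γ', φ, hPF, ?_⟩
  have hin : ∀ i s η, φ i (s, η) ≠ 0 → (s, η) ∈ E i := by
    intro i s η h
    by_contra hq
    have := hφ2 i (s, η)
    rw [indicator_of_notMem hq, nonpos_iff_eq_zero] at this
    exact h this
  refine ⟨hδ, hK, by positivity, hsep, hφ1, ?_, ?_, hφ3⟩
  · intro i s η h
    exact hin i s η h
  · intro i s η
    by_cases h : φ i (s, η) = 0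
    · rw [h]; exact zero_le
    · have := hφ2 i (s, η)
      rw [indicator_of_mem (hin i s η h)] at this
      exact this

end Pool.Agent.X160.Pf
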