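import Pool.Agent.X160.Pf.Tub
set_option autoImplicit false

/-!
# The estimate for tubes carried by a family of planes
-/

open MeasureTheory Set Metric Filter
open scoped ENNReal NNReal

namespace Pool.Agent.X160.Pf

variable {m M : ℕ} {A : ℝ} {T : Set (ℝ × ℝ)} {S : Set (Vec m)} {α β γ : Vec m → Vec m}
  {a b c : Vec m → Vec m →L[ℝ] Vec m} {ι : Type*} {δ K L : ℝ} {v : ι → Base m} {t₀ Y : ι → ℝ}
  {Z : ι → Vec m} {φ : ι → Vec m × ℝ → ℝ≥0∞}

/-- product form of a tube -/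
def Pt (δ : ℝ) (v : ι → Base m) (t₀ Y : ι → ℝ) (Z : ι → Vec m) (i : ι) : Set ((ℝ × ℝ) × Vec m) :=
  {q | q.1 ∈ trace δ (t₀ i) (Y i) (v i).snd ∧ ‖q.2 - Z i - (q.1.1 - t₀ i) • (v i).fst‖ ≤ 2 * δ}

/-- number of product tubes -/
noncomputable def cnt [Fintype ι] (δ : ℝ) (v : ι → Base m) (t₀ Y : ι → ℝ) (Z : ι → Vec m)
    (p : ℝ × ℝ) (z : Vec m) : ℝ≥0∞ :=
  ∑ i, (Pt δ v t₀ Y Z i).indicator (fun _ => (1 : ℝ≥0∞)) (p, z)

/-- the local weight -/
noncomputable def fp [Fintype ι] (δ : ℝ) (v : ι → Base m) (t₀ Y : ι → ℝ)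
    (φ : ι → Vec m × ℝ → ℝ≥0∞) (p : ℝ × ℝ) (s : Vec m) : ℝ≥0∞ :=
  ∑ i, (trace δ (t₀ i) (Y i) (v i).snd).indicator (fun _ => wt φ i s) p

theorem TD.mfp [Fintype ι] (D : TD δ K L S α β γ b c v t₀ Y Z φ) :
    Measurable (fun q : (ℝ × ℝ) × Vec m => fp δ v t₀ Y φ q.1 q.2) := by
  unfold fp
  apply Finset.measurable_sum
  intro i _
  have e : (fun q : (ℝ × ℝ) × Vec m =>
      (trace δ (t₀ i) (Y i) (v i).snd).indicator (fun _ => wt φ i q.2) q.1) =
      (Prod.fst ⁻¹' (trace δ (t₀ i) (Y i) (v i).snd)).indicator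
        (fun q : (ℝ × ℝ) × Vec m => wt φ i q.2) := by
    funext q
    by_cases h : q.1 ∈ trace δ (t₀ i) (Y i) (v i).snd
    · rw [indicator_of_mem h, indicator_of_mem
        (show q ∈ Prod.fst ⁻¹' (trace δ (t₀ i) (Y i) (v i).snd) from h)]
    · rw [indicator_of_notMem h, indicator_of_notMem
        (show q ∉ Prod.fst ⁻¹' (trace δ (t₀ i) (Y i) (v i).snd) from h)]
  rw [e]
  exact ((D.mwt i).comp measurable_snd).indicator (measurable_fst (trace_meas _ _ _ _))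

theorem TD.mfp_left [Fintype ι] (D : TD δ K L S α β γ b c v t₀ Y Z φ) (p : ℝ × ℝ) :
    Measurable (fun s => fp δ v t₀ Y φ p s) := by
  have h := D.mfp
  generalize fp δ v t₀ Y φ = f at h ⊢
  exact h.comp (measurable_const.prodMk measurable_id)

/-- the active planes -/
def act [Fintype ι] (S : Set (Vec m)) (φ : ι → Vec m × ℝ → ℝ≥0∞) : Set (Vec m) :=
  {s | s ∈ S ∧ (∑ i, wt φ i s ≠ 0 ∧ ∑ i, wt φ i s ≠ ∞)}

theorem TD.mact [Fintype ι] (D : TD δ K L S α β γ b c v t₀ Y Z φ) (hS : MeasurableSet S) :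
    MeasurableSet (act S φ) := by
  have hm : Measurable (fun s => ∑ i, wt φ i s) := Finset.measurable_sum _ fun i _ => D.mwt i
  exact hS.inter ((hm (measurableSet_singleton 0).compl).inter
    (hm (measurableSet_singleton ∞).compl))

/-- The points of a tube are close to the planes that carry it. -/
theorem TD.close (D : TD δ K L S α β γ b c v t₀ Y Z φ) (hγ : ∀ s ∈ S, ‖γ s‖ ≤ A)
    {i : ι} {p : ℝ × ℝ} {z : Vec m} (hp : (p, z) ∈ Pt δ v t₀ Y Z i) {s : Vec m}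
    (hs : wt φ i s ≠ 0) : pt α β γ p s ∈ closedBall z (3 * (1 + K + A) * δ) := by
  have hδ := D.hδ
  have hK := D.hK
  obtain ⟨η, hη⟩ := TD.exists_ne i hs
  obtain ⟨hsS, h1, h2⟩ := D.sup i s η hη
  have hA := hγ s hsS
  have hA0 : 0 ≤ A := (norm_nonneg _).trans hA
  have g1 : ‖(β s + η • γ s) - (v i).fst‖ < δ / 2 :=
    (norm_fst_le' (WithLp.toLp 2 (β s + η • γ s, η) - v i)).trans_lt h1
  have g2 : |η - (v i).snd| < δ / 2 :=
    (norm_snd_le' (WithLp.toLp 2 (β s + η • γ s, η) - v i)).trans_lt h1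
  obtain ⟨⟨h3, h4⟩, h5⟩ := hp
  have h3' : |p.1 - t₀ i| ≤ 3 / 2 := h3
  have h4' : |p.2 - Y i - (p.1 - t₀ i) * (v i).snd| ≤ 2 * δ := h4
  have h5' : ‖z - Z i - (p.1 - t₀ i) • (v i).fst‖ ≤ 2 * δ := h5
  rw [mem_closedBall, dist_eq_norm]
  have e : pt α β γ p s - z = (pt α β γ (t₀ i, Y i) s - Z i) +
      (p.1 - t₀ i) • ((β s + η • γ s) - (v i).fst) +
      ((p.2 - Y i - (p.1 - t₀ i) * (v i).snd) - (p.1 - t₀ i) * (η - (v i).snd)) • γ s -
      (z - Z i - (p.1 - t₀ i) • (v i).fst) := by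
    unfold pt
    module
  rw [e]
  have n1 : ‖(p.1 - t₀ i) • ((β s + η • γ s) - (v i).fst)‖ ≤ 3 / 2 * (δ / 2) := by
    rw [norm_smul, Real.norm_eq_abs]
    exact mul_le_mul h3' g1.le (norm_nonneg _) (by norm_num)
  have n2 : |(p.2 - Y i - (p.1 - t₀ i) * (v i).snd) - (p.1 - t₀ i) * (η - (v i).snd)| ≤ 3 * δ := by
    refine (abs_sub _ _).trans ?_
    have : |(p.1 - t₀ i) * (η - (v i).snd)| ≤ 3 / 2 * (δ / 2) := by
      rw [abs_mul]
      exact mul_le_mul h3' g2.le (abs_nonneg _) (by norm_num)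
    linarith
  have n3 : ‖((p.2 - Y i - (p.1 - t₀ i) * (v i).snd) - (p.1 - t₀ i) * (η - (v i).snd)) • γ s‖ ≤
      3 * δ * A := by
    rw [norm_smul, Real.norm_eq_abs]
    exact mul_le_mul n2 hA (norm_nonneg _) (by positivity)
  refine (norm_sub_le _ _).trans ?_
  have n4 := norm_add₃_le (a := pt α β γ (t₀ i, Y i) s - Z i)
    (b := (p.1 - t₀ i) • ((β s + η • γ s) - (v i).fst))
    (c := ((p.2 - Y i - (p.1 - t₀ i) * (v i).snd) - (p.1 - t₀ i) * (η - (v i).snd)) • γ s)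
  have hKδ : 0 ≤ K * δ := by positivity
  nlinarith

/-- Lower bound. -/
theorem TD.lower [Fintype ι] (D : TD δ K L S α β γ b c v t₀ Y Z φ)
    (hγ : ∀ s ∈ S, ‖γ s‖ ≤ A) (hS : MeasurableSet S) (mα : Measurable α) (mβ : Measurable β)
    (mγ : Measurable γ) (p : ℝ × ℝ) (z : Vec m) :
    cnt δ v t₀ Y Z p z * ENNReal.ofReal L ≤
      ∫⁻ s in act S φ ∩ {s | pt α β γ p s ∈ closedBall z (3 * (1 + K + A) * δ)},
        fp δ v t₀ Y φ p s := by
  set Q := act S φ ∩ {s | pt α β γ p s ∈ closedBall z (3 * (1 + K + A) * δ)} with hQ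
  have hmpt : Measurable (fun s => pt α β γ p s) := by
    unfold pt
    exact (mα.add (mβ.const_smul p.1)).add (mγ.const_smul p.2)
  have hQm : MeasurableSet Q := (D.mact hS).inter (hmpt measurableSet_closedBall)
  have hfin : ∀ᵐ s : Vec m, ∑ i, wt φ i s ≠ ∞ := by
    have h1 : ∫⁻ s, ∑ i, wt φ i s ≠ ∞ := by
      rw [lintegral_finsetSum _ (fun i _ => D.mwt i)]
      simp only [D.wt_int]
      exact ENNReal.sum_ne_top.2 fun i _ => ENNReal.ofReal_ne_top
    filter_upwards [ae_lt_top (Finset.measurable_sum _ fun i _ => D.mwt i) h1] with s hs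
    exact hs.ne
  have hterm : ∀ i, (Pt δ v t₀ Y Z i).indicator (fun _ => (1 : ℝ≥0∞)) (p, z) * ENNReal.ofReal L ≤
      ∫⁻ s in Q, (trace δ (t₀ i) (Y i) (v i).snd).indicator (fun _ => wt φ i s) p := by
    intro i
    by_cases hp : (p, z) ∈ Pt δ v t₀ Y Z i
    · rw [indicator_of_mem hp, one_mul]
      have h1 : ∀ s, (trace δ (t₀ i) (Y i) (v i).snd).indicator (fun _ => wt φ i s) p = wt φ i s :=
        fun s => indicator_of_mem hp.1 _
      simp only [h1]
      rw [← D.wt_int i, ← lintegral_indicator hQm]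
      apply lintegral_mono_ae
      filter_upwards [hfin] with s hs
      by_cases hw : wt φ i s = 0
      · rw [hw]; exact zero_le
      · have hsQ : s ∈ Q := by
          obtain ⟨η, hη⟩ := TD.exists_ne i hw
          refine ⟨⟨(D.sup i s η hη).1, ?_, hs⟩, D.close hγ hp hw⟩
          intro h0
          rw [Finset.sum_eq_zero_iff] at h0
          exact hw (h0 i (Finset.mem_univ _))
        rw [indicator_of_mem hsQ]
    · rw [indicator_of_notMem hp, zero_mul]
      exact zero_le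
  unfold cnt fp
  rw [Finset.sum_mul, lintegral_finsetSum]
  · exact Finset.sum_le_sum fun i _ => hterm i
  · intro i _
    by_cases hp : p ∈ trace δ (t₀ i) (Y i) (v i).snd
    · simp only [indicator_of_mem hp]
      exact D.mwt i
    · simp only [indicator_of_notMem hp]
      exact measurable_const

/-- The thresholds. -/
noncomputable def tau [Fintype ι] (κ : ℝ) (φ : ι → Vec m × ℝ → ℝ≥0∞) (s : Vec m) : ℝ :=
  if 0 < (∑ i, wt φ i s).toReal then κ * (∑ i, wt φ i s).toReal else 1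

theorem tau_pos [Fintype ι] {κ : ℝ} (hκ : 0 < κ) (s : Vec m) : 0 < tau κ φ s := by
  unfold tau
  split_ifs with h
  · positivity
  · norm_num

theorem TD.mtau [Fintype ι] (D : TD δ K L S α β γ b c v t₀ Y Z φ) (κ : ℝ) :
    Measurable (tau κ φ) := by
  have hm : Measurable (fun s => (∑ i, wt φ i s).toReal) :=
    (Finset.measurable_sum _ fun i _ => D.mwt i).ennreal_toReal
  exact Measurable.ite (measurableSet_lt measurable_const hm) (hm.const_mul κ) measurable_const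

theorem tau_act [Fintype ι] {κ : ℝ} {s : Vec m} (hs : s ∈ act S φ) :
    tau κ φ s = κ * (∑ i, wt φ i s).toReal := by
  unfold tau
  rw [if_pos (ENNReal.toReal_pos hs.2.1 hs.2.2)]

/-- **The main estimate.** -/
theorem TD.upper [Fintype ι] [Nonempty ι] (H : PF M A T S α β γ a b c) (hT : MeasurableSet T)
    (D : TD δ K L S α β γ b c v t₀ Y Z φ) (hm : 1 ≤ m) (hA : 0 ≤ A) {r : ℝ}
    (hr : 1 < ((m : ℝ) + 1) * r) (hr1 : r ≤ 1) {V : ℝ} (hV : 0 < V)
    (hVe : volume (closedBall (0 : Vec m) (3 * (1 + K + A) * δ)) = ENNReal.ofReal V) :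
    ∫⁻ p in T, ∫⁻ z, (cnt δ v t₀ Y Z p z * ENNReal.ofReal L) ^ (r + 1) ≤
      ENNReal.ofReal (((M + 1) * V) ^ r * V *
        (2 * Dc m r (K1 m) (K2 m A) * (δ ^ (r + 1) *
          (Fintype.card ι * L / (δ * V)) ^ (r - 1 / ((m : ℝ) + 1))) * (Fintype.card ι * L))) := by
  classical
  have hδ := D.hδ
  have hL := D.hL
  have hm0 : (0 : ℝ) < m := by exact_mod_cast hm
  have hr0 : 0 < r := by
    by_contra h
    push Not at h
    nlinarith
  set N : ℝ := (Fintype.card ι : ℝ) with hN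
  have hN0 : 0 < N := by
    rw [hN]
    exact_mod_cast Fintype.card_pos
  set R : ℝ := 3 * (1 + K + A) * δ with hR
  set κ : ℝ := V / (N * L) with hκ
  have hκ0 : 0 < κ := by positivity
  set S' := act S φ with hS'
  have hS'm : MeasurableSet S' := D.mact H.ms
  have hSS : S' ⊆ S := fun s hs => hs.1
  have hsum : ∫⁻ s, ∑ i, wt φ i s = ENNReal.ofReal (N * L) := by
    rw [lintegral_finsetSum _ (fun i _ => D.mwt i)]
    simp only [D.wt_int]
    rw [Finset.sum_const, Finset.card_univ, nsmul_eq_mul, hN, ENNReal.ofReal_mul (Nat.cast_nonneg _),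
      ENNReal.ofReal_natCast]
  have hτint : ∫⁻ s in S', ENNReal.ofReal (tau κ φ s) ≤ ENNReal.ofReal V := by
    calc ∫⁻ s in S', ENNReal.ofReal (tau κ φ s)
        ≤ ∫⁻ s in S', ENNReal.ofReal κ * ∑ i, wt φ i s := by
          apply setLIntegral_mono' hS'm
          intro s hs
          rw [tau_act hs, ENNReal.ofReal_mul hκ0.le, ENNReal.ofReal_toReal hs.2.2]
      _ ≤ ∫⁻ s, ENNReal.ofReal κ * ∑ i, wt φ i s := setLIntegral_le_lintegral _ _
      _ = ENNReal.ofReal κ * ENNReal.ofReal (N * L) := by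
          rw [lintegral_const_mul _ (Finset.measurable_sum _ fun i _ => D.mwt i), hsum]
      _ = ENNReal.ofReal V := by
          rw [← ENNReal.ofReal_mul hκ0.le]
          congr 1
          rw [hκ]
          field_simp
  have hM0 : (0 : ℝ) ≤ M := Nat.cast_nonneg _
  set B : ℝ := N * L / (δ * V) with hB
  have hB0 : 0 < B := by positivity
  set G : ℝ := 2 * Dc m r (K1 m) (K2 m A) * (δ ^ (r + 1) * B ^ (r - 1 / ((m : ℝ) + 1))) with hG
  have hG0 : 0 ≤ G := by
    obtain ⟨hε, hε1, ht0, ht1⟩ := ep_facts hr hr1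
    have hC2 : 1 ≤ K2 m A := by
      unfold K2
      have h1 : (1 : ℝ) ≤ max 1 (Cn m) := le_max_left _ _
      have h2 : (1 : ℝ) ≤ (1 + A) ^ m := one_le_pow₀ (by linarith)
      nlinarith
    have hCe := Ce_pos hε hC2
    have hK1 : 0 < K1 m := by unfold K1; positivity
    have h1t : 0 < 1 - th0 m r (ep m r) := by linarith
    rw [hG]
    unfold Dc
    positivity
  -- pointwise in `p`
  have hpt : ∀ᵐ p : ℝ × ℝ, p ∈ T → ∫⁻ z, (cnt δ v t₀ Y Z p z * ENNReal.ofReal L) ^ (r + 1) ≤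
      ENNReal.ofReal (((M + 1) * V) ^ r * V) *
        ∫⁻ s in S', fp δ v t₀ Y φ p s ^ (r + 1) * ENNReal.ofReal (Wt a b c (tau κ φ) p s) ^ (-r) := by
    filter_upwards [H.mult] with p hp hpT
    have h1 := H.point_int (hp hpT) R hr0 (D.mtau κ) (tau_pos hκ0) hS'm hSS (D.mfp_left p)
    rw [hVe] at h1
    have h2 : ((M : ℝ≥0∞) * ENNReal.ofReal V + ∫⁻ s in S', ENNReal.ofReal (tau κ φ s)) ^ r ≤
        ENNReal.ofReal (((M + 1) * V) ^ r) := by
      rw [← ENNReal.ofReal_rpow_of_pos (by positivity)]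
      apply ENNReal.rpow_le_rpow _ hr0.le
      calc (M : ℝ≥0∞) * ENNReal.ofReal V + ∫⁻ s in S', ENNReal.ofReal (tau κ φ s)
          ≤ (M : ℝ≥0∞) * ENNReal.ofReal V + ENNReal.ofReal V := by gcongr
        _ = ENNReal.ofReal ((M + 1) * V) := by
            rw [← ENNReal.ofReal_natCast, ← ENNReal.ofReal_mul (Nat.cast_nonneg _),
              ← ENNReal.ofReal_add (by positivity) hV.le]
            congr 1
            ring
    calc ∫⁻ z, (cnt δ v t₀ Y Z p z * ENNReal.ofReal L) ^ (r + 1)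
        ≤ ∫⁻ z, (∫⁻ s in S' ∩ {s | pt α β γ p s ∈ closedBall z R}, fp δ v t₀ Y φ p s) ^ (r + 1) := by
          apply lintegral_mono
          intro z
          exact ENNReal.rpow_le_rpow (D.lower H.bd H.ms H.mα H.mβ H.mγ p z) (by linarith)
      _ ≤ _ := h1
      _ ≤ ENNReal.ofReal (((M + 1) * V) ^ r) * (ENNReal.ofReal V *
            ∫⁻ s in S', fp δ v t₀ Y φ p s ^ (r + 1) *
              ENNReal.ofReal (Wt a b c (tau κ φ) p s) ^ (-r)) := by gcongr
      _ = _ := by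
          rw [ENNReal.ofReal_mul (by positivity), mul_assoc]
  -- the leaves
  have hleaf : ∀ s ∈ S', ∫⁻ p : ℝ × ℝ, fp δ v t₀ Y φ p s ^ (r + 1) *
      ENNReal.ofReal (Wt a b c (tau κ φ) p s) ^ (-r) ≤ ENNReal.ofReal G * ∑ i, wt φ i s := by
    intro s hs
    have hfin : ∀ i, wt φ i s ≠ ∞ := by
      intro i
      exact ne_top_of_le_ne_top hs.2.2 (Finset.single_le_sum (f := fun i => wt φ i s)
        (fun _ _ => zero_le) (Finset.mem_univ i))
    refine D.leaf (a := a) hm hA (H.bd s hs.1) hfin (tau_pos hκ0 s) hB0 ?_ hr hr1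
    rw [tau_act hs, ENNReal.toReal_sum (fun i _ => hfin i)]
    apply le_of_eq
    have : B * δ * κ = 1 := by
      rw [hB, hκ]
      field_simp
    rw [← mul_assoc, this, one_mul]
  have hF : Measurable (fun q : (ℝ × ℝ) × Vec m => fp δ v t₀ Y φ q.1 q.2 ^ (r + 1) *
      ENNReal.ofReal (Wt a b c (tau κ φ) q.1 q.2) ^ (-r)) :=
    (D.mfp.pow_const _).mul ((H.mWt (D.mtau κ)).ennreal_ofReal.pow_const _)
  calc ∫⁻ p in T, ∫⁻ z, (cnt δ v t₀ Y Z p z * ENNReal.ofReal L) ^ (r + 1)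
      ≤ ∫⁻ p in T, ENNReal.ofReal (((M + 1) * V) ^ r * V) *
        ∫⁻ s in S', fp δ v t₀ Y φ p s ^ (r + 1) *
          ENNReal.ofReal (Wt a b c (tau κ φ) p s) ^ (-r) := by
        apply lintegral_mono_ae
        rw [ae_restrict_iff' hT]
        exact hpt
    _ ≤ ∫⁻ p, ENNReal.ofReal (((M + 1) * V) ^ r * V) *
        ∫⁻ s in S', fp δ v t₀ Y φ p s ^ (r + 1) *
          ENNReal.ofReal (Wt a b c (tau κ φ) p s) ^ (-r) := setLIntegral_le_lintegral _ _
    _ = ENNReal.ofReal (((M + 1) * V) ^ r * V) * ∫⁻ p,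
        ∫⁻ s in S', fp δ v t₀ Y φ p s ^ (r + 1) *
          ENNReal.ofReal (Wt a b c (tau κ φ) p s) ^ (-r) :=
        lintegral_const_mul _ hF.lintegral_prod_right'
    _ = ENNReal.ofReal (((M + 1) * V) ^ r * V) * ∫⁻ s in S', ∫⁻ p,
          fp δ v t₀ Y φ p s ^ (r + 1) * ENNReal.ofReal (Wt a b c (tau κ φ) p s) ^ (-r) := by
        rw [lintegral_lintegral_swap (f := fun (p : ℝ × ℝ) (s : Vec m) =>
          fp δ v t₀ Y φ p s ^ (r + 1) * ENNReal.ofReal (Wt a b c (tau κ φ) p s) ^ (-r))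
          hF.aemeasurable]
    _ ≤ ENNReal.ofReal (((M + 1) * V) ^ r * V) * ∫⁻ s in S', ENNReal.ofReal G * ∑ i, wt φ i s := by
        exact mul_le_mul_right (setLIntegral_mono' hS'm hleaf) _
    _ ≤ ENNReal.ofReal (((M + 1) * V) ^ r * V) * ∫⁻ s, ENNReal.ofReal G * ∑ i, wt φ i s := by
        exact mul_le_mul_right (setLIntegral_le_lintegral _ _) _
    _ = ENNReal.ofReal (((M + 1) * V) ^ r * V) * (ENNReal.ofReal G * ENNReal.ofReal (N * L)) := by
        rw [lintegral_const_mul _ (Finset.measurable_sum _ fun i _ => D.mwt i), hsum]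
    _ = _ := by
        rw [← ENNReal.ofReal_mul hG0, ← ENNReal.ofReal_mul (by positivity)]

end Pool.Agent.X160.Pf
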