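import Pool.Agent.X160.Pf.Fin
import Pool.Agent.H810R3.Tub.Poly
set_option autoImplicit false

/-!
# Polynomial families of planes
-/

open MeasureTheory Set Metric
open scoped ENNReal NNReal

namespace Pool.Agent.X160.Pf

open Pool.Agent.H810R3.Tub (few)

variable {m : ℕ}

theorem eval_contDiff (p : MvPolynomial (Fin m) ℝ) :
    ContDiff ℝ 1 (fun s : Vec m => MvPolynomial.eval (fun i => s i) p) := by
  induction p using MvPolynomial.induction_on with
  | C a => simpa using contDiff_const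
  | add p q hp hq => simpa using hp.add hq
  | mul_X p i hp =>
    have h1 : ContDiff ℝ 1 (fun s : Vec m => s i) := by fun_prop
    simpa using hp.mul h1

theorem pmap_contDiff (P : Fin m → MvPolynomial (Fin m) ℝ) : ContDiff ℝ 1 (Pool.Agent.H810R3.Tub.pmap P) := by
  rw [contDiff_euclidean]
  intro i
  exact eval_contDiff (P i)

theorem pmap_lip {S : Set (Vec m)} (hS : Bornology.IsBounded S)
    (P : Fin m → MvPolynomial (Fin m) ℝ) : ∃ L : ℝ≥0, LipschitzOnWith L (Pool.Agent.H810R3.Tub.pmap P) S := by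
  obtain ⟨ρ, hρ⟩ := hS.subset_closedBall 0
  have h1 := (pmap_contDiff P).locallyLipschitz.locallyLipschitzOn (s := closedBall (0 : Vec m) ρ)
  obtain ⟨L, hL⟩ := LocallyLipschitzOn.exists_lipschitzOnWith_of_compact
    (isCompact_closedBall (0 : Vec m) ρ) h1
  exact ⟨L, hL.mono hρ⟩

theorem poly_lip {S : Set (Vec m)} (hS : Bornology.IsBounded S)
    (P Q R : Fin m → MvPolynomial (Fin m) ℝ) : ∃ L : ℝ≥0, LipschitzOnWith L (Pool.Agent.H810R3.Tub.pmap P) S ∧
      LipschitzOnWith L (Pool.Agent.H810R3.Tub.pmap Q) S ∧ LipschitzOnWith L (Pool.Agent.H810R3.Tub.pmap R) S := by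
  obtain ⟨L1, h1⟩ := pmap_lip hS P
  obtain ⟨L2, h2⟩ := pmap_lip hS Q
  obtain ⟨L3, h3⟩ := pmap_lip hS R
  refine ⟨max L1 (max L2 L3), h1.weaken (le_max_left _ _),
    h2.weaken ((le_max_left _ _).trans (le_max_right _ _)),
    h3.weaken ((le_max_right _ _).trans (le_max_right _ _))⟩

theorem poly_overlap (hm : 1 ≤ m) {k : ℕ} (S : Set (Vec m))
    (P Q R : Fin m → MvPolynomial (Fin m) ℝ) (hP : ∀ j, (P j).totalDegree ≤ k)
    (hQ : ∀ j, (Q j).totalDegree ≤ k) (hR : ∀ j, (R j).totalDegree ≤ k) :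
    OverlapLE (((k * m + 1) ^ m) ^ m) Set.univ S (Pool.Agent.H810R3.Tub.pmap P) (Pool.Agent.H810R3.Tub.pmap Q) (Pool.Agent.H810R3.Tub.pmap R) := by
  refine Filter.Eventually.of_forall fun p _ => ?_
  set φ : Fin m → MvPolynomial (Fin m) ℝ := fun j => P j + MvPolynomial.C p.1 * Q j +
    MvPolynomial.C p.2 * R j with hφ
  have hφd : ∀ j, (φ j).totalDegree ≤ k := by
    intro j
    have hc : ∀ (c : ℝ) (X : MvPolynomial (Fin m) ℝ), X.totalDegree ≤ k →
        (MvPolynomial.C c * X).totalDegree ≤ k := by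
      intro c X hX
      refine (MvPolynomial.totalDegree_mul _ _).trans ?_
      rw [MvPolynomial.totalDegree_C]
      omega
    refine (MvPolynomial.totalDegree_add _ _).trans (max_le ?_ (hc _ _ (hR j)))
    exact (MvPolynomial.totalDegree_add _ _).trans (max_le (hP j) (hc _ _ (hQ j)))
  have h1 := few hm (J := (k * m + 1) ^ m) rfl φ hφd
  have h2 := (EuclideanSpace.volume_preserving_symm_measurableEquiv_toLp
    (Fin m)).quasiMeasurePreserving.ae h1
  filter_upwards [h2] with y hy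
  refine le_trans ?_ hy
  have hinj : Function.Injective (fun v : Vec m => (fun i => v i : Fin m → ℝ)) := by
    intro v w h
    ext i
    exact congr_fun h i
  rw [← hinj.encard_image]
  apply Set.encard_le_encard
  rintro _ ⟨v, ⟨_, hv⟩, rfl⟩
  intro i
  rw [hφ]
  simp only [map_add, map_mul, MvPolynomial.eval_C]
  rw [← hv]
  rfl

end Pool.Agent.X160.Pf
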