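import Pool.Agent.X160.Pl.Sum
set_option autoImplicit false

/-!
# Sums for the leaf estimate
-/

open MeasureTheory Set Metric
open scoped ENNReal NNReal

namespace Pool.Agent.X160.Pf

/-- Bernoulli step. -/
theorem step_real {r G w : ℝ} (hr : 0 ≤ r) (hr1 : r ≤ 1) (hG : 0 ≤ G) (hw : 0 < w) :
    (G + w) ^ (r + 1) ≤ G ^ (r + 1) + 2 * (w * (G + w) ^ r) := by
  have hN1 : (0 : ℝ) < G + w := by positivity
  have hs : (-1 : ℝ) ≤ -(w / (G + w)) := by
    rw [neg_le_neg_iff, div_le_iff₀ hN1]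
    linarith
  have h1 := one_add_mul_self_le_rpow_one_add hs (by linarith : 1 ≤ r + 1)
  have h2 : (1 + -(w / (G + w))) = G / (G + w) := by
    field_simp
    ring
  rw [h2, Real.div_rpow hG hN1.le, le_div_iff₀ (by positivity)] at h1
  have h3 : (G + w) ^ (r + 1) = (G + w) ^ r * (G + w) := by
    rw [Real.rpow_add hN1, Real.rpow_one]
  have h4 : (1 + (r + 1) * -(w / (G + w))) * (G + w) ^ (r + 1) =
      (G + w) ^ (r + 1) - (r + 1) * (w * (G + w) ^ r) := by
    rw [h3]
    field_simp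
    ring
  rw [h4] at h1
  have h5 : 0 ≤ w * (G + w) ^ r := by positivity
  nlinarith

/-- Summation in the order of the weights. -/
theorem rank_sum {ι : Type*} {r : ℝ} (hr : 0 < r) (hr1 : r ≤ 1) (w : ι → ℝ) (T : Finset ι)
    (hw : ∀ i ∈ T, 0 < w i) :
    (∑ i ∈ T, w i) ^ (r + 1) ≤
      2 * ∑ i ∈ T, w i * (∑ j ∈ T.filter (fun j => w j ≤ w i), w j) ^ r := by
  classical
  induction T using Finset.induction_on_max_value w with
  | empty =>
    simp only [Finset.sum_empty, mul_zero]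
    rw [Real.zero_rpow (by linarith)]
  | insert a s ha hmax ih =>
    have hs : ∀ i ∈ s, 0 < w i := fun i hi => hw i (Finset.mem_insert_of_mem hi)
    have hwa : 0 < w a := hw a (Finset.mem_insert_self _ _)
    have hG : 0 ≤ ∑ i ∈ s, w i := Finset.sum_nonneg fun i hi => (hs i hi).le
    have h1 := step_real hr.le hr1 hG hwa
    have h2 := ih hs
    rw [Finset.sum_insert ha, add_comm (w a), Finset.sum_insert ha]
    have h3 : (insert a s).filter (fun j => w j ≤ w a) = insert a s := by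
      apply Finset.filter_true_of_mem
      intro j hj
      rcases Finset.mem_insert.1 hj with h | h
      · rw [h]
      · exact hmax j h
    rw [h3, Finset.sum_insert ha, add_comm (w a) (∑ i ∈ s, w i)]
    have h4 : ∑ i ∈ s, w i * (∑ j ∈ s.filter (fun j => w j ≤ w i), w j) ^ r ≤
        ∑ i ∈ s, w i * (∑ j ∈ (insert a s).filter (fun j => w j ≤ w i), w j) ^ r := by
      apply Finset.sum_le_sum
      intro i hi
      apply mul_le_mul_of_nonneg_left _ (hs i hi).le
      apply Real.rpow_le_rpow _ _ hr.le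
      · exact Finset.sum_nonneg fun j hj => (hs j (Finset.mem_filter.1 hj).1).le
      · apply Finset.sum_le_sum_of_subset_of_nonneg
        · intro j hj
          rw [Finset.mem_filter] at hj ⊢
          exact ⟨Finset.mem_insert_of_mem hj.1, hj.2⟩
        · intro j hj _
          exact (hw j (Finset.mem_filter.1 hj).1).le
    linarith

/-- The constant of the overlap sum. -/
noncomputable def Ce (ε C₂ : ℝ) : ℝ := (3 + 2 * (2 ^ ε / (2 ^ ε - 1))) * C₂ ^ 2

theorem Ce_pos {ε C₂ : ℝ} (hε : 0 < ε) (hC₂ : 1 ≤ C₂) : 0 < Ce ε C₂ := by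
  have h21 : (1 : ℝ) < 2 ^ ε := Real.one_lt_rpow (by norm_num) hε
  have h22 : (0 : ℝ) < 2 ^ ε - 1 := by linarith
  unfold Ce
  positivity

/-- The overlap sum. -/
theorem overlap_sum {ι : Type*} (J : Finset ι) (z c : ι → ℝ) {A C₂ ε ρ : ℝ} (hε : 0 < ε)
    (hε1 : ε ≤ 1) (hC₂ : 1 ≤ C₂) (hA : 1 ≤ A) (hρ : 0 < ρ) (hz : ∀ j ∈ J, 1 ≤ z j)
    (hc0 : ∀ j ∈ J, 0 ≤ c j) (hc1 : ∀ j ∈ J, c j ≤ 1) (hcA : ∑ j ∈ J, c j ≤ A)
    (hct : ∀ t, 1 ≤ t → ((J.filter (fun j => z j ≤ t)).card : ℝ) ≤ C₂ * t) :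
    ∑ j ∈ J, c j * min ρ (z j)⁻¹ ≤ Ce ε C₂ * (max 1 (A * ρ)) ^ ε := by
  classical
  have h21 : (1 : ℝ) < 2 ^ ε := Real.one_lt_rpow (by norm_num) hε
  have h22 : (0 : ℝ) < 2 ^ ε - 1 := by linarith
  set K0 : ℝ := 2 ^ ε / (2 ^ ε - 1) with hK0
  have hK00 : 0 < K0 := by positivity
  set P : ℝ := (max 1 (A * ρ)) ^ ε with hP
  have hP1 : 1 ≤ P := Real.one_le_rpow (le_max_left _ _) hε.le
  set J1 := J.filter (fun j => z j * ρ ≤ 1) with hJ1
  set J3 := J.filter (fun j => A < z j) with hJ3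
  set J2 := J.filter (fun j => 1 < z j * ρ ∧ z j ≤ A) with hJ2
  have hsplit : ∑ j ∈ J, c j * min ρ (z j)⁻¹ ≤
      ∑ j ∈ J1, ρ + ∑ j ∈ J3, c j * A⁻¹ + ∑ j ∈ J2, (z j)⁻¹ := by
    rw [hJ1, hJ3, hJ2, Finset.sum_filter, Finset.sum_filter, Finset.sum_filter,
      ← Finset.sum_add_distrib, ← Finset.sum_add_distrib]
    apply Finset.sum_le_sum
    intro j hj
    have hz1 := hz j hj
    have hc0' := hc0 j hj
    have hc1' := hc1 j hj
    have hzi : 0 < (z j)⁻¹ := by positivity
    have hmin : c j * min ρ (z j)⁻¹ ≤ ρ := by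
      calc c j * min ρ (z j)⁻¹ ≤ 1 * ρ := by
            apply mul_le_mul hc1' (min_le_left _ _) (by positivity) (by norm_num)
        _ = ρ := one_mul _
    by_cases h1 : z j * ρ ≤ 1
    · rw [if_pos h1]
      have h3 : 0 ≤ (if A < z j then c j * A⁻¹ else 0) := by split_ifs <;> positivity
      have h4 : 0 ≤ (if 1 < z j * ρ ∧ z j ≤ A then (z j)⁻¹ else 0) := by
        split_ifs
        · positivity
        · exact le_rfl
      linarith
    · rw [if_neg h1]
      push Not at h1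
      by_cases h2 : A < z j
      · rw [if_pos h2, if_neg (fun h => absurd h.2 (not_le.2 h2))]
        have h5 : (z j)⁻¹ ≤ A⁻¹ := by gcongr
        have h6 : c j * min ρ (z j)⁻¹ ≤ c j * A⁻¹ :=
          mul_le_mul_of_nonneg_left ((min_le_right _ _).trans h5) hc0'
        linarith
      · rw [if_neg h2, if_pos ⟨h1, not_lt.1 h2⟩]
        have h6 : c j * min ρ (z j)⁻¹ ≤ 1 * (z j)⁻¹ :=
          mul_le_mul hc1' (min_le_right _ _) (by positivity) (by norm_num)
        linarith
  have hb1 : ∑ j ∈ J1, ρ ≤ C₂ := by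
    rw [Finset.sum_const, nsmul_eq_mul]
    by_cases hne : J1.Nonempty
    · obtain ⟨j, hj⟩ := hne
      rw [hJ1, Finset.mem_filter] at hj
      have hz1 := hz j hj.1
      have hρ1 : 1 ≤ ρ⁻¹ := by
        rw [one_le_inv₀ hρ]
        nlinarith [hj.2]
      have h2 := hct ρ⁻¹ hρ1
      have h3 : J1 = J.filter (fun j => z j ≤ ρ⁻¹) := by
        rw [hJ1]
        apply Finset.filter_congr
        intro x _
        rw [← one_div, le_div_iff₀ hρ]
      rw [h3]
      calc ((J.filter (fun j => z j ≤ ρ⁻¹)).card : ℝ) * ρ ≤ C₂ * ρ⁻¹ * ρ := by gcongr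
        _ = C₂ := by field_simp
    · rw [Finset.not_nonempty_iff_eq_empty] at hne
      rw [hne]
      simp
      linarith
  have hb3 : ∑ j ∈ J3, c j * A⁻¹ ≤ 1 := by
    rw [← Finset.sum_mul]
    have h1 : ∑ j ∈ J3, c j ≤ A := by
      refine le_trans (Finset.sum_le_sum_of_subset_of_nonneg (Finset.filter_subset _ _) ?_) hcA
      intro j hj _
      exact hc0 j hj
    calc (∑ j ∈ J3, c j) * A⁻¹ ≤ A * A⁻¹ := by gcongr
      _ = 1 := mul_inv_cancel₀ (by linarith)
  have hb2 : ∑ j ∈ J2, (z j)⁻¹ ≤ (1 + 2 * K0) * C₂ ^ 2 * P := by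
    by_cases hne : J2.Nonempty
    · obtain ⟨j, hj⟩ := hne
      rw [hJ2, Finset.mem_filter] at hj
      have hAρ : 1 < A * ρ := lt_of_lt_of_le hj.2.1 (mul_le_mul_of_nonneg_right hj.2.2 hρ.le)
      have hρA : ρ⁻¹ ≤ A := by
        rw [← one_div, div_le_iff₀ hρ]
        exact hAρ.le
      set B' : ℝ := max 1 ρ⁻¹ with hB'
      have hB'1 : 1 ≤ B' := le_max_left _ _
      have hB'A : B' ≤ A := max_le hA hρA
      have hB'N : B' ≤ C₂ * A := by nlinarith
      have h1 := Pool.Agent.X160.Pl.harm_sum J2 (fun j => z j / B') (K := C₂) (B := B')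
        (N := C₂ * A) (ε := ε) (by linarith) (by linarith) hB'N hε
        (by
          refine le_trans ?_ (hct A hA)
          exact_mod_cast Finset.card_le_card (by
            intro x hx
            rw [hJ2, Finset.mem_filter] at hx
            rw [Finset.mem_filter]
            exact ⟨hx.1, hx.2.2⟩))
        (by
          intro x hx
          rw [hJ2, Finset.mem_filter] at hx
          rw [le_div_iff₀ (by linarith), one_mul]
          apply max_le (hz x hx.1)
          rw [← one_div, div_le_iff₀ hρ]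
          exact hx.2.1.le)
        (by
          intro t ht
          have h2 := hct (B' * t) (by nlinarith)
          refine le_trans ?_ (h2.trans (le_of_eq (by ring)))
          exact_mod_cast Finset.card_le_card (by
            intro x hx
            rw [Finset.mem_filter] at hx
            rw [hJ2, Finset.mem_filter] at hx
            rw [Finset.mem_filter]
            refine ⟨hx.1.1, ?_⟩
            have := hx.2
            rw [div_le_iff₀ (by linarith)] at this
            linarith))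
      have h2 : ∑ j ∈ J2, (z j / B')⁻¹ = B' * ∑ j ∈ J2, (z j)⁻¹ := by
        rw [Finset.mul_sum]
        apply Finset.sum_congr rfl
        intro x hx
        rw [inv_div, div_eq_mul_inv]
      rw [h2] at h1
      have h3 : (C₂ * A / B') ^ ε ≤ C₂ * P := by
        have h4 : C₂ * A / B' ≤ C₂ * max 1 (A * ρ) := by
          rw [div_le_iff₀ (by linarith)]
          have h5 : 1 ≤ ρ * B' := by
            calc (1 : ℝ) = ρ * ρ⁻¹ := (mul_inv_cancel₀ hρ.ne').symm
              _ ≤ ρ * B' := by gcongr; exact le_max_right _ _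
          calc C₂ * A = C₂ * A * 1 := (mul_one _).symm
            _ ≤ C₂ * A * (ρ * B') := by gcongr
            _ = C₂ * (A * ρ) * B' := by ring
            _ ≤ C₂ * max 1 (A * ρ) * B' := by gcongr; exact le_max_right _ _
        calc (C₂ * A / B') ^ ε ≤ (C₂ * max 1 (A * ρ)) ^ ε :=
              Real.rpow_le_rpow (by positivity) h4 hε.le
          _ = C₂ ^ ε * P := by rw [Real.mul_rpow (by linarith) (by positivity)]
          _ ≤ C₂ ^ (1 : ℝ) * P := by gcongr
          _ = C₂ * P := by rw [Real.rpow_one]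
      have h5 : ∑ j ∈ J2, (z j)⁻¹ ≤ (1 + 2 * C₂ * K0) * (C₂ * A / B') ^ ε := by
        have h6 : B' * ∑ j ∈ J2, (z j)⁻¹ ≤ B' * ((1 + 2 * C₂ * K0) * (C₂ * A / B') ^ ε) := by
          refine h1.trans (le_of_eq (by ring))
        exact le_of_mul_le_mul_left h6 (by linarith)
      calc ∑ j ∈ J2, (z j)⁻¹ ≤ (1 + 2 * C₂ * K0) * (C₂ * P) := h5.trans (by gcongr)
        _ ≤ (C₂ + 2 * C₂ * K0) * (C₂ * P) := by gcongr
        _ = _ := by ring
    · rw [Finset.not_nonempty_iff_eq_empty] at hne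
      rw [hne]
      simp only [Finset.sum_empty]
      positivity
  have hC22 : C₂ ≤ C₂ ^ 2 := by nlinarith
  have hC23 : 1 ≤ C₂ ^ 2 := by nlinarith
  unfold Ce
  rw [← hK0]
  have h7 : C₂ ≤ C₂ ^ 2 * P := by nlinarith
  have h8 : 1 ≤ C₂ ^ 2 * P := by nlinarith
  calc ∑ j ∈ J, c j * min ρ (z j)⁻¹ ≤ C₂ + 1 + (1 + 2 * K0) * C₂ ^ 2 * P := by linarith
    _ ≤ C₂ ^ 2 * P + C₂ ^ 2 * P + (1 + 2 * K0) * C₂ ^ 2 * P := by linarith
    _ = _ := by ring

end Pool.Agent.X160.Pf
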