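import Pool.Agent.X160.Pf.Fam
set_option autoImplicit false

/-!
# Tubes carried by a family of planes
-/

open MeasureTheory Set Metric Filter
open scoped ENNReal NNReal

namespace Pool.Agent.X160.Pf

/-- Tubes carried by the family. -/
structure TD {m : ℕ} {ι : Type*} (δ K L : ℝ) (S : Set (Vec m)) (α β γ : Vec m → Vec m)
    (b c : Vec m → Vec m →L[ℝ] Vec m) (v : ι → Base m) (t₀ Y : ι → ℝ) (Z : ι → Vec m)
    (φ : ι → Vec m × ℝ → ℝ≥0∞) : Prop where
  hδ : 0 < δ
  hK : 0 ≤ K
  hL : 0 < L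
  sep : ∀ i j, i ≠ j → δ ≤ ‖v i - v j‖
  mφ : ∀ i, Measurable (φ i)
  sup : ∀ i s η, φ i (s, η) ≠ 0 → s ∈ S ∧ ‖WithLp.toLp 2 (β s + η • γ s, η) - v i‖ < δ / 2 ∧
    ‖pt α β γ (t₀ i, Y i) s - Z i‖ ≤ K * δ
  le : ∀ i s η, φ i (s, η) ≤ ENNReal.ofReal |(b s + η • c s).det|
  int : ∀ i, ∫⁻ q, φ i q = ENNReal.ofReal L

variable {m M : ℕ} {A : ℝ} {T : Set (ℝ × ℝ)} {S : Set (Vec m)} {α β γ : Vec m → Vec m}
  {a b c : Vec m → Vec m →L[ℝ] Vec m} {ι : Type*} {δ K L : ℝ} {v : ι → Base m} {t₀ Y : ι → ℝ}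
  {Z : ι → Vec m} {φ : ι → Vec m × ℝ → ℝ≥0∞}

/-- the weight of a tube at a plane -/
noncomputable def wt (φ : ι → Vec m × ℝ → ℝ≥0∞) (i : ι) (s : Vec m) : ℝ≥0∞ := ∫⁻ η : ℝ, φ i (s, η)

theorem TD.mwt (D : TD δ K L S α β γ b c v t₀ Y Z φ) (i : ι) : Measurable (wt φ i) :=
  (D.mφ i).lintegral_prod_right'

theorem TD.wt_int (D : TD δ K L S α β γ b c v t₀ Y Z φ) (i : ι) :
    ∫⁻ s, wt φ i s = ENNReal.ofReal L := by
  rw [← D.int i, Measure.volume_eq_prod, lintegral_prod _ (D.mφ i).aemeasurable]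
  rfl

theorem TD.exists_ne (i : ι) {s : Vec m} (h : wt φ i s ≠ 0) : ∃ η, φ i (s, η) ≠ 0 := by
  by_contra hc
  push Not at hc
  apply h
  unfold wt
  simp [hc]

/-- A slope at which the Jacobian is large. -/
theorem TD.slope (D : TD δ K L S α β γ b c v t₀ Y Z φ) (i : ι) {s : Vec m}
    (h0 : wt φ i s ≠ 0) (ht : wt φ i s ≠ ∞) :
    ∃ η, ‖WithLp.toLp 2 (β s + η • γ s, η) - v i‖ < δ / 2 ∧
      (wt φ i s).toReal ≤ 2 * δ * |(b s + η • c s).det| := by
  have hδ := D.hδ
  by_contra hcon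
  push Not at hcon
  set w : ℝ := (wt φ i s).toReal with hw
  have hw0 : 0 < w := ENNReal.toReal_pos h0 ht
  have hwe : wt φ i s = ENNReal.ofReal w := (ENNReal.ofReal_toReal ht).symm
  set I : Set ℝ := Icc ((v i).snd - δ / 2) ((v i).snd + δ / 2) with hI
  have hle : ∀ η, φ i (s, η) ≤ I.indicator (fun _ => ENNReal.ofReal (w / (2 * δ))) η := by
    intro η
    by_cases hφ : φ i (s, η) = 0
    · rw [hφ]; exact zero_le
    · obtain ⟨_, h2, _⟩ := D.sup i s η hφ
      have h3 := (norm_snd_le' (WithLp.toLp 2 (β s + η • γ s, η) - v i)).trans_lt h2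
      have h4 : |η - (v i).snd| < δ / 2 := h3
      rw [abs_lt] at h4
      rw [indicator_of_mem (show η ∈ I from ⟨by linarith, by linarith⟩)]
      refine (D.le i s η).trans (ENNReal.ofReal_le_ofReal ?_)
      have h5 := hcon η h2
      rw [le_div_iff₀ (by positivity)]
      linarith
  have h6 : wt φ i s ≤ ENNReal.ofReal (w / 2) := by
    calc wt φ i s ≤ ∫⁻ η, I.indicator (fun _ => ENNReal.ofReal (w / (2 * δ))) η :=
          lintegral_mono hle
      _ = ENNReal.ofReal (w / (2 * δ)) * ENNReal.ofReal δ := by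
          rw [lintegral_indicator_const measurableSet_Icc, Real.volume_Icc]
          congr 2
          ring
      _ = ENNReal.ofReal (w / 2) := by
          rw [← ENNReal.ofReal_mul (by positivity)]
          congr 1
          field_simp
  rw [hwe, ENNReal.ofReal_le_ofReal_iff (by positivity)] at h6
  linarith

/-- constants of the leaf estimate -/
noncomputable def K1 (m : ℕ) : ℝ := 24 * m + 64

/-- constants of the leaf estimate -/
noncomputable def K2 (m : ℕ) (A : ℝ) : ℝ := max 1 (Cn m) * (1 + A) ^ m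

theorem TD.leaf [Fintype ι] (D : TD δ K L S α β γ b c v t₀ Y Z φ) (hm : 1 ≤ m)
    (hA : 0 ≤ A) {s : Vec m} (hs : ‖γ s‖ ≤ A) (hfin : ∀ i, wt φ i s ≠ ∞) {τ : Vec m → ℝ}
    (hτ : 0 < τ s) {B : ℝ} (hB : 0 < B) (hBs : ∑ i, (wt φ i s).toReal ≤ B * δ * τ s) {r : ℝ}
    (hr : 1 < ((m : ℝ) + 1) * r) (hr1 : r ≤ 1) :
    ∫⁻ p : ℝ × ℝ, (∑ i, (trace δ (t₀ i) (Y i) (v i).snd).indicator (fun _ => wt φ i s) p) ^ (r + 1) *
      ENNReal.ofReal (Wt a b c τ p s) ^ (-r) ≤
      ENNReal.ofReal (2 * Dc m r (K1 m) (K2 m A) * (δ ^ (r + 1) * B ^ (r - 1 / ((m : ℝ) + 1)))) *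
        ∑ i, wt φ i s := by
  classical
  have hδ := D.hδ
  have hm0 : (0 : ℝ) < m := by exact_mod_cast hm
  set w : ι → ℝ := fun i => (wt φ i s).toReal with hw
  have hwe : ∀ i, wt φ i s = ENNReal.ofReal (w i) := fun i => (ENNReal.ofReal_toReal (hfin i)).symm
  set J : Finset ι := Finset.univ.filter (fun i => wt φ i s ≠ 0) with hJ
  have hJw : ∀ i ∈ J, 0 < w i := by
    intro i hi
    exact ENNReal.toReal_pos (Finset.mem_filter.1 hi).2 (hfin i)
  have hJ0 : ∀ i, i ∉ J → w i = 0 := by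
    intro i hi
    have : wt φ i s = 0 := by
      by_contra h
      exact hi (Finset.mem_filter.2 ⟨Finset.mem_univ _, h⟩)
    simp [hw, this]
  have hsl : ∀ i, ∃ η, i ∈ J → ‖WithLp.toLp 2 (β s + η • γ s, η) - v i‖ < δ / 2 ∧
      w i ≤ 2 * δ * |(b s + η • c s).det| := by
    intro i
    by_cases hi : i ∈ J
    · obtain ⟨η, h⟩ := D.slope i (Finset.mem_filter.1 hi).2 (hfin i)
      exact ⟨η, fun _ => h⟩
    · exact ⟨0, fun h => absurd h hi⟩
  choose η hη using hsl
  set Dt : ι → ℝ := fun i => |(b s + η i • c s).det| with hDt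
  have hDt0 : ∀ i ∈ J, 0 < Dt i := by
    intro i hi
    have h1 := (hη i hi).2
    have h2 := hJw i hi
    by_contra hc
    push Not at hc
    have : 2 * δ * Dt i ≤ 0 := by
      have : 0 ≤ Dt i := abs_nonneg _
      nlinarith
    linarith
  have hjc : Continuous (fun p : ℝ × ℝ => jac a b c p s) := by
    unfold jac
    apply Continuous.abs
    apply ContinuousLinearMap.continuous_det.comp
    fun_prop
  have hj0 : ∀ p, 0 ≤ jac a b c p s := fun p => abs_nonneg _
  set hf : ι → ℝ × ℝ → ℝ := fun i p => (jac a b c p s / (2 * Dt i)) ^ (1 / (m : ℝ)) with hhf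
  have hfp : ∀ i ∈ J, ∀ p, hf i p ^ m = jac a b c p s / (2 * Dt i) := by
    intro i hi p
    have h1 := hDt0 i hi
    have h2 := hj0 p
    simp only [hhf]
    rw [← Real.rpow_natCast, ← Real.rpow_mul (by positivity), one_div_mul_cancel hm0.ne',
      Real.rpow_one]
  have hf0 : ∀ i ∈ J, ∀ p, 0 ≤ hf i p := by
    intro i hi p
    have h1 := hDt0 i hi
    have h2 := hj0 p
    simp only [hhf]
    positivity
  have hC2 : 1 ≤ K2 m A := by
    unfold K2
    have h1 : (1 : ℝ) ≤ max 1 (Cn m) := le_max_left _ _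
    have h2 : (1 : ℝ) ≤ (1 + A) ^ m := one_le_pow₀ (by linarith)
    nlinarith
  have HL : Leaf (volume : Measure (ℝ × ℝ)) m δ B (K1 m) (K2 m A) J w
      (fun i => trace δ (t₀ i) (Y i) (v i).snd) hf (fun p => Wt a b c τ p s)
      (fun i j => 1 + |(v i).snd - (v j).snd| / δ) := by
    refine ⟨hδ, hB, by unfold K1; positivity, hC2, hJw, fun i _ => trace_meas _ _ _ _, ?_, ?_, ?_,
      ?_, ?_, ?_, ?_, ?_, ?_⟩
    · intro i _
      exact (hjc.measurable.div_const _).pow_const _
    · exact hjc.measurable.max measurable_const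
    · intro p
      exact lt_max_of_lt_right hτ
    · intro i hi p _
      rw [hfp i hi p]
      have h1 := hDt0 i hi
      have h2 := hj0 p
      have h3 := (hη i hi).2
      have h4 : w i / δ * (jac a b c p s / (2 * Dt i)) ≤ jac a b c p s := by
        have e : w i / δ * (jac a b c p s / (2 * Dt i)) = jac a b c p s * (w i / (2 * δ * Dt i)) := by
          field_simp
        rw [e]
        have h5 : w i / (2 * δ * Dt i) ≤ 1 := by
          rw [div_le_iff₀ (by positivity), one_mul]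
          exact h3
        calc jac a b c p s * (w i / (2 * δ * Dt i)) ≤ jac a b c p s * 1 := by gcongr
          _ = _ := mul_one _
      exact h4.trans (le_max_left _ _)
    · intro p
      have h1 : ∑ i ∈ J, w i ≤ ∑ i, w i := by
        apply Finset.sum_le_sum_of_subset_of_nonneg (Finset.subset_univ _)
        intro i _ _
        exact ENNReal.toReal_nonneg
      refine (h1.trans hBs).trans ?_
      have h2 : τ s ≤ Wt a b c τ p s := le_max_right _ _
      gcongr
    · intro i hi ρ hρ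
      have h1 := hDt0 i hi
      have hdet : (b s + η i • c s).det ≠ 0 := abs_pos.1 h1
      have h2 := (norm_snd_le' (WithLp.toLp 2 (β s + η i • γ s, η i) - v i)).trans_lt (hη i hi).1
      have h3 : |η i - (v i).snd| < δ / 2 := h2
      rw [abs_sub_comm] at h3
      have h4 := trace_root hm (a s) (b s) (c s) (t₀ := t₀ i) (Y := Y i) hδ h3.le hdet hρ
      refine le_trans (measure_mono ?_) (h4.trans (ENNReal.ofReal_le_ofReal ?_))
      · rintro p ⟨hp1, hp2⟩
        refine ⟨hp1, ?_⟩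
        have hp3 : hf i p ≤ ρ := hp2
        have h5 : hf i p ^ m ≤ ρ ^ m := pow_le_pow_left₀ (hf0 i hi p) hp3 m
        rw [hfp i hi p, div_le_iff₀ (by positivity)] at h5
        show jac a b c p s ≤ 2 * Dt i * ρ ^ m
        linarith
      · unfold K1
        have : 0 ≤ δ * ρ := by positivity
        nlinarith
    · intro i hi j hj
      refine (trace_inter hδ).trans (ENNReal.ofReal_le_ofReal ?_)
      have h1 : (0 : ℝ) ≤ |(v i).snd - (v j).snd| / δ := by positivity
      unfold K1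
      have : (0 : ℝ) ≤ 24 * m := by positivity
      gcongr
      linarith
    · intro i _ j _
      have h1 : (0 : ℝ) ≤ |(v i).snd - (v j).snd| / δ := by positivity
      linarith
    · intro i hi t ht
      have h1 := line_count (β s) (γ s) hA hs hδ (J.filter (fun j => 1 + |(v i).snd - (v j).snd| / δ ≤ t))
        v (fun i _ j _ hij => D.sep i j hij)
        (fun j hj => ⟨η j, (hη j (Finset.mem_filter.1 hj).1).1⟩) ((v i).snd) (k := t - 1)
        (by linarith) (by
          intro j hj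
          have h2 := (Finset.mem_filter.1 hj).2
          rw [abs_sub_comm]
          have h3 : |(v i).snd - (v j).snd| / δ ≤ t - 1 := by linarith
          rwa [div_le_iff₀ hδ] at h3)
      refine h1.trans ?_
      have h4 : Cn m * (1 + A) ^ m ≤ K2 m A := by
        unfold K2
        gcongr
        exact le_max_right _ _
      have e : t - 1 + 1 = t := by ring
      rw [e]
      gcongr
  have hmain := HL.main hr hr1
  have e1 : ∀ p : ℝ × ℝ, ENNReal.ofReal (∑ i ∈ J,
      (trace δ (t₀ i) (Y i) (v i).snd).indicator (fun _ => w i) p) =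
      ∑ i, (trace δ (t₀ i) (Y i) (v i).snd).indicator (fun _ => wt φ i s) p := by
    intro p
    rw [ENNReal.ofReal_sum_of_nonneg (by
      intro i hi
      apply Set.indicator_nonneg
      intro _ _
      exact (hJw i hi).le)]
    rw [← Finset.sum_subset (Finset.subset_univ J) (by
      intro i _ hi
      have h1 := hJ0 i hi
      rw [hwe, h1]
      simp)]
    apply Finset.sum_congr rfl
    intro i _
    by_cases hp : p ∈ trace δ (t₀ i) (Y i) (v i).snd
    · rw [indicator_of_mem hp, indicator_of_mem hp, hwe]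
    · rw [indicator_of_notMem hp, indicator_of_notMem hp, ENNReal.ofReal_zero]
  simp only [e1] at hmain
  refine hmain.trans (le_of_eq ?_)
  have hDc0 : 0 ≤ 2 * Dc m r (K1 m) (K2 m A) * (δ ^ (r + 1) * B ^ (r - 1 / ((m : ℝ) + 1))) := by
    obtain ⟨hε, hε1, ht0, ht1⟩ := ep_facts hr hr1
    have hCe := Ce_pos hε hC2
    have hK1 : 0 < K1 m := by unfold K1; positivity
    have h1t : 0 < 1 - th0 m r (ep m r) := by linarith
    unfold Dc
    positivity
  rw [ENNReal.ofReal_mul hDc0]
  congr 1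
  rw [ENNReal.ofReal_sum_of_nonneg (fun i hi => (hJw i hi).le),
    ← Finset.sum_subset (Finset.subset_univ J) (f := fun i => wt φ i s) (by
      intro i _ hi
      rw [hwe, hJ0 i hi, ENNReal.ofReal_zero])]
  apply Finset.sum_congr rfl
  intro i _
  rw [hwe]

end Pool.Agent.X160.Pf
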